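import Pool.Agent.FBL.Pivot

namespace Pool.Agent.FBL

open Finset

variable {n : ℕ} {V : Finset (Fin n → ℤ)}

/-- A zero-sum primitive collection all of whose maximal proper subsets are faces. -/
structure IsBlock (V : Finset (Fin n → ℤ)) (P : Finset (Fin n → ℤ)) : Prop where
  sub : P ⊆ V
  nonempty : P.Nonempty
  sum : ∑ v ∈ P, v = 0
  face : ∀ w ∈ P, ∃ u, IsFct V u ∧ ∀ v ∈ P, v ≠ w → u v = 1

lemma IsBlock.sum_map {P : Finset (Fin n → ℤ)} (hP : IsBlock V P)
    (m : (Fin n → ℤ) →ₗ[ℤ] ℤ) : ∑ v ∈ P, m v = 0 := by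
  rw [← map_sum, hP.sum, map_zero]

lemma IsBlock.card_le {P P' : Finset (Fin n → ℤ)} (hP : IsBlock V P) (hP' : IsBlock V P')
    {w : Fin n → ℤ} (hw : w ∈ P) (hw' : w ∈ P') : P.card ≤ P'.card ∧
      (P.card = P'.card → P ⊆ P') := by
  classical
  obtain ⟨u, hu, huP⟩ := hP.face w hw
  have h1 : u w + (P.card - 1 : ℤ) = 0 := by
    have := hP.sum_map u
    rw [← Finset.add_sum_erase _ _ hw] at this
    have h2 : ∑ v ∈ P.erase w, u v = (P.card - 1 : ℤ) := by
      rw [Finset.sum_congr rfl (g := fun _ => (1:ℤ))]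
      · rw [Finset.sum_const, Finset.card_erase_of_mem hw]
        have := Finset.card_pos.mpr ⟨w, hw⟩
        simp
        omega
      · intro v hv
        rw [Finset.mem_erase] at hv
        exact huP v hv.2 hv.1
    linarith
  have h3 : u w + ∑ v ∈ P'.erase w, u v = 0 := by
    rw [Finset.add_sum_erase _ _ hw']
    exact hP'.sum_map u
  have h4 : ∑ v ∈ P'.erase w, (1 - u v) = P'.card - P.card := by
    rw [Finset.sum_sub_distrib, Finset.sum_const, Finset.card_erase_of_mem hw']
    have := Finset.card_pos.mpr ⟨w, hw'⟩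
    simp only [smul_eq_mul, mul_one, nsmul_eq_mul]
    push_cast [Nat.cast_sub this]
    linarith
  have h5 : ∀ v ∈ P'.erase w, 0 ≤ 1 - u v := by
    intro v hv
    rw [Finset.mem_erase] at hv
    have := hu.le_one v (hP'.sub hv.2)
    linarith
  have h6 := Finset.sum_nonneg h5
  refine ⟨by omega, ?_⟩
  intro hcard
  have h7 : ∑ v ∈ P'.erase w, (1 - u v) = 0 := by omega
  rw [Finset.sum_eq_zero_iff_of_nonneg h5] at h7
  intro x hx
  by_contra hx'
  have hxw : x ≠ w := by
    rintro rfl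
    exact hx' hw'
  obtain ⟨m, hm⟩ := hu.exists_dual (hP.sub hx) (huP x hx hxw)
  have h8 : m w + 1 = 0 := by
    have := hP.sum_map m
    rw [← Finset.add_sum_erase _ _ hw, Finset.sum_eq_single x] at this
    · rw [hm.1] at this
      exact this
    · intro v hv hvx
      rw [Finset.mem_erase] at hv
      exact hm.2 v (hP.sub hv.2) (huP v hv.2 hv.1) hvx
    · intro h
      exact absurd (Finset.mem_erase.mpr ⟨hxw, hx⟩) h
  have h9 : m w = 0 := by
    have := hP'.sum_map m
    rw [← Finset.add_sum_erase _ _ hw', Finset.sum_eq_zero, add_zero] at this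
    · exact this
    · intro v hv
      have h10 := h7 v hv
      rw [Finset.mem_erase] at hv
      apply hm.2 v (hP'.sub hv.2) (by linarith)
      rintro rfl
      exact hx' hv.2
  omega

/-- Two blocks with a common element are equal. -/
lemma IsBlock.eq {P P' : Finset (Fin n → ℤ)} (hP : IsBlock V P) (hP' : IsBlock V P')
    {w : Fin n → ℤ} (hw : w ∈ P) (hw' : w ∈ P') : P = P' := by
  have h1 := hP.card_le hP' hw hw'
  have h2 := hP'.card_le hP hw' hw
  have h3 : P.card = P'.card := le_antisymm h1.1 h2.1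
  exact Finset.Subset.antisymm (h1.2 h3) (h2.2 h3.symm)

/-- There is a block. -/
lemma IsSmoothFano.exists_block (hV : IsSmoothFano V) : ∃ P, IsBlock V P := by
  classical
  have hcov := fun v : Fin n → ℤ => hV.cover (-v)
  choose U hU hmax b hb0 hb using hcov
  obtain ⟨v0, hv0, hmin⟩ := Finset.exists_min_image V (fun v => U v (-v)) hV.nonempty
  set u := U v0 with hu
  -- the total weight
  have hd : ∀ u' : (Fin n → ℤ) →ₗ[ℤ] ℤ,
      -u' v0 = ∑ w ∈ V.filter (fun v => u v = 1), b v0 w * u' w := by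
    intro u'
    rw [← map_neg]
    conv_lhs => rw [hb v0]
    rw [map_sum]
    apply Finset.sum_congr rfl
    intro w _
    rw [LinearMap.map_smul, smul_eq_mul]
  have hdu : -u v0 = ∑ w ∈ V.filter (fun v => u v = 1), b v0 w := by
    rw [hd u]
    apply Finset.sum_congr rfl
    intro w hw
    rw [Finset.mem_filter] at hw
    rw [hw.2, mul_one]
  have hdu0 : 0 ≤ -u v0 := by
    rw [hdu]
    exact Finset.sum_nonneg (fun w _ => hb0 v0 w)
  have key : ∀ w ∈ V, u w = 1 → 1 ≤ b v0 w →
      U w v0 = 1 ∧ b v0 w = 1 ∧ ∀ w' ∈ V, u w' = 1 → 1 ≤ b v0 w' → w' ≠ w → U w w' = 1 := by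
    intro w hw hw1 hbw
    have h1 := hmin w hw
    simp only [map_neg] at h1
    have h2 := hd (U w)
    have h3 : ∑ w' ∈ V.filter (fun v => u v = 1), b v0 w' * (1 - U w w') =
        -u v0 + U w v0 := by
      simp only [mul_sub, mul_one]
      rw [Finset.sum_sub_distrib, ← h2, ← hdu]
      ring
    have hwF : w ∈ V.filter (fun v => u v = 1) := by simp [hw, hw1]
    have h4 : ∀ w' ∈ V.filter (fun v => u v = 1), 0 ≤ b v0 w' * (1 - U w w') := by
      intro w' hw'
      rw [Finset.mem_filter] at hw'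
      apply mul_nonneg (hb0 v0 w')
      have := (hU w).le_one w' hw'.1
      linarith
    rw [← Finset.add_sum_erase _ _ hwF] at h3
    have h5 : ∀ w' ∈ (V.filter (fun v => u v = 1)).erase w, 0 ≤ b v0 w' * (1 - U w w') :=
      fun w' hw' => h4 w' (Finset.mem_of_mem_erase hw')
    have h6 := Finset.sum_nonneg h5
    have h7 := (hU w).le_one v0 hv0
    have h8 := (hU w).le_one w hw
    have h9 : (b v0 w - 1) * (1 - U w w) ≥ 0 := mul_nonneg (by linarith) (by linarith)
    have h10 : U w v0 = 1 := by nlinarith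
    have h11 : ∑ w' ∈ (V.filter (fun v => u v = 1)).erase w, b v0 w' * (1 - U w w') = 0 := by
      nlinarith
    have h12 : (b v0 w - 1) * (1 - U w w) = 0 := by nlinarith
    rw [Finset.sum_eq_zero_iff_of_nonneg h5] at h11
    have h13 : ∀ w' ∈ V, u w' = 1 → 1 ≤ b v0 w' → w' ≠ w → U w w' = 1 := by
      intro w' hw' hw'1 hbw' hne
      have := h11 w' (by simp [hw', hw'1, hne])
      rcases mul_eq_zero.mp this with h | h <;> omega
    refine ⟨h10, ?_, h13⟩
    by_contra hb1
    have h14 : U w w = 1 := by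
      rcases mul_eq_zero.mp h12 with h | h <;> omega
    have h15 : -U w v0 = ∑ w' ∈ V.filter (fun v => u v = 1), b v0 w' := by
      rw [h2]
      apply Finset.sum_congr rfl
      intro w' hw'
      rw [Finset.mem_filter] at hw'
      by_cases hz : 1 ≤ b v0 w'
      · by_cases hne : w' = w
        · rw [hne, h14, mul_one]
        · rw [h13 w' hw'.1 hw'.2 hz hne, mul_one]
      · have := hb0 v0 w'
        have : b v0 w' = 0 := by omega
        rw [this, zero_mul]
    rw [← hdu, h10] at h15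
    omega
  set τ := V.filter (fun w => u w = 1 ∧ 1 ≤ b v0 w) with hτ
  have hv0τ : v0 ∉ τ := by
    intro h
    rw [hτ, Finset.mem_filter] at h
    omega
  have hτsum : ∑ w ∈ τ, w = -v0 := by
    rw [hb v0]
    have hsub : τ ⊆ V.filter (fun v => u v = 1) := by
      intro w hw
      rw [hτ, Finset.mem_filter] at hw
      rw [Finset.mem_filter]
      exact ⟨hw.1, hw.2.1⟩
    rw [← Finset.sum_subset hsub]
    · apply Finset.sum_congr rfl
      intro w hw
      rw [hτ, Finset.mem_filter] at hw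
      rw [(key w hw.1 hw.2.1 hw.2.2).2.1, one_smul]
    · intro w hw hw'
      rw [Finset.mem_filter] at hw
      rw [hτ, Finset.mem_filter] at hw'
      have h1 := hb0 v0 w
      have : b v0 w = 0 := by
        by_contra hne
        exact hw' ⟨hw.1, hw.2, by omega⟩
      rw [this, zero_smul]
  refine ⟨insert v0 τ, ⟨?_, ⟨v0, by simp⟩, ?_, ?_⟩⟩
  · intro v hv
    rcases Finset.mem_insert.mp hv with rfl | h
    · exact hv0
    · exact (Finset.mem_filter.mp h).1
  · rw [Finset.sum_insert hv0τ, hτsum]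
    simp
  · intro w hw
    rcases Finset.mem_insert.mp hw with rfl | h
    · refine ⟨u, hU _, ?_⟩
      intro v hv hne
      rcases Finset.mem_insert.mp hv with h | h
      · exact absurd h hne
      · exact (Finset.mem_filter.mp h).2.1
    · have hw2 := Finset.mem_filter.mp h
      obtain ⟨h1, h2, h3⟩ := key w hw2.1 hw2.2.1 hw2.2.2
      refine ⟨U w, hU w, ?_⟩
      intro v hv hne
      rcases Finset.mem_insert.mp hv with h | h
      · rw [h]
        exact h1
      · have hv2 := Finset.mem_filter.mp h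
        exact h3 v hv2.1 hv2.2.1 hv2.2.2 hne

/-- Automorphisms act on facets. -/
lemma IsFct.comp {u : (Fin n → ℤ) →ₗ[ℤ] ℤ} (hu : IsFct V u)
    {g : (Fin n → ℤ) ≃ₗ[ℤ] (Fin n → ℤ)} (hg : g ∈ autGroup V) :
    IsFct V (u ∘ₗ (g : (Fin n → ℤ) →ₗ[ℤ] (Fin n → ℤ))) := by
  have hset : {v | v ∈ V ∧ (u ∘ₗ (g : (Fin n → ℤ) →ₗ[ℤ] (Fin n → ℤ))) v = 1} =
      g.symm '' {v | v ∈ V ∧ u v = 1} := by
    ext v
    simp only [LinearMap.comp_apply, LinearEquiv.coe_coe, Set.mem_image]
    constructor
    · rintro ⟨h1, h2⟩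
      exact ⟨g v, ⟨(hg v).mpr h1, h2⟩, by simp⟩
    · rintro ⟨x, ⟨h1, h2⟩, rfl⟩
      refine ⟨?_, by simpa using h2⟩
      rw [← hg]
      simpa using h1
  refine ⟨?_, ?_, ?_⟩
  · intro v hv
    exact hu.le_one _ ((hg v).mpr hv)
  · rw [hset]
    have h1 : LinearIndepOn ℤ (g.symm : (Fin n → ℤ) → (Fin n → ℤ)) {v | v ∈ V ∧ u v = 1} := by
      have := hu.indep.map_injOn (g.symm : (Fin n → ℤ) →ₗ[ℤ] (Fin n → ℤ))
        (g.symm.injective.injOn)
      exact this
    exact h1.id_image
  · rw [hset]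
    have := congrArg (Submodule.map (g.symm : (Fin n → ℤ) →ₗ[ℤ] (Fin n → ℤ))) hu.span
    rw [Submodule.map_span, Submodule.map_top, LinearEquiv.range] at this
    exact this

lemma IsBlock.image {P : Finset (Fin n → ℤ)} (hP : IsBlock V P)
    {g : (Fin n → ℤ) ≃ₗ[ℤ] (Fin n → ℤ)} (hg : g ∈ autGroup V) :
    IsBlock V (P.image g) := by
  classical
  refine ⟨?_, hP.nonempty.image _, ?_, ?_⟩
  · intro v hv
    obtain ⟨x, hx, rfl⟩ := Finset.mem_image.mp hv
    exact (hg x).mpr (hP.sub hx)
  · rw [Finset.sum_image (by intro a _ b _ h; exact g.injective h)]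
    rw [← map_sum, hP.sum, map_zero]
  · intro w hw
    obtain ⟨x, hx, rfl⟩ := Finset.mem_image.mp hw
    obtain ⟨u, hu, h⟩ := hP.face x hx
    refine ⟨_, hu.comp (Subgroup.inv_mem _ hg), ?_⟩
    intro v hv hne
    obtain ⟨y, hy, rfl⟩ := Finset.mem_image.mp hv
    have h1 : g⁻¹ (g y) = y := by
      have : (g⁻¹ * g) y = y := by simp
      simpa using this
    simp only [LinearMap.comp_apply, LinearEquiv.coe_coe]
    rw [h1]
    apply h y hy
    rintro rfl
    exact hne rfl

end Pool.Agent.FBL
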