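import Pool.Agent.FBL.Final

namespace Pool.Agent.FBL

variable {n : ℕ} {V : Finset (Fin n → ℤ)}

lemma isAut_toAddEquiv {g : (Fin n → ℤ) ≃ₗ[ℤ] (Fin n → ℤ)} (hg : g ∈ autGroup V) :
    IsAut V g.toAddEquiv := hg

lemma mem_autGroup_of_isAut {g : (Fin n → ℤ) ≃+ (Fin n → ℤ)} (hg : IsAut V g) :
    g.toIntLinearEquiv ∈ autGroup V := hg

lemma aut_iff {v w : Fin n → ℤ} : (∃ g, IsAut V g ∧ g v = w) ↔ ∃ g ∈ autGroup V, g v = w := by
  constructor
  · rintro ⟨g, hg, h⟩
    exact ⟨g.toIntLinearEquiv, mem_autGroup_of_isAut hg, h⟩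
  · rintro ⟨g, hg, h⟩
    exact ⟨g.toAddEquiv, isAut_toAddEquiv hg, h⟩

lemma vertexTransitive_iff : VertexTransitive V ↔ VertexTransitiveL V := by
  unfold VertexTransitive VertexTransitiveL
  simp only [aut_iff]

lemma orbitOf_eq_iff {v w : Fin n → ℤ} :
    orbitOf V v = orbitOf V w ↔ ∃ g ∈ autGroup V, g v = w := by
  constructor
  · intro h
    have h1 : w ∈ orbitOf V w := aut_iff.mpr ⟨1, Subgroup.one_mem _, rfl⟩
    rw [← h] at h1
    exact aut_iff.mp h1
  · rintro ⟨g, hg, rfl⟩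
    ext x
    constructor
    · intro hx
      obtain ⟨g', hg', h⟩ := aut_iff.mp hx
      refine aut_iff.mpr ⟨g' * g⁻¹, Subgroup.mul_mem _ hg' (Subgroup.inv_mem _ hg), ?_⟩
      have h2 : g⁻¹ (g v) = v := by
        have : (g⁻¹ * g) v = v := by simp
        exact this
      rw [LinearEquiv.mul_apply, h2, h]
    · intro hx
      obtain ⟨g', hg', h⟩ := aut_iff.mp hx
      exact aut_iff.mpr ⟨g' * g, Subgroup.mul_mem _ hg' hg, by rw [LinearEquiv.mul_apply, h]⟩

lemma numOrbits_eq : numOrbits V = numOrbitsL V := by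
  classical
  unfold numOrbits numOrbitsL
  rw [← Nat.card_coe_set_eq]
  symm
  apply Nat.card_congr
  refine Equiv.ofBijective (fun o : Quotient (orbitSetoidL V) =>
    (⟨orbitOf V (Quotient.out o).1, (Quotient.out o).1, (Quotient.out o).2, rfl⟩ :
      {O | ∃ v ∈ V, O = orbitOf V v})) ⟨?_, ?_⟩
  · intro o o' h
    have h1 : orbitOf V (Quotient.out o).1 = orbitOf V (Quotient.out o').1 :=
      congrArg Subtype.val h
    obtain ⟨g, hg, h2⟩ := orbitOf_eq_iff.mp h1
    have h3 : Quotient.mk (orbitSetoidL V) (Quotient.out o) =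
        Quotient.mk (orbitSetoidL V) (Quotient.out o') :=
      Quotient.sound (⟨g, hg, h2⟩ : (orbitSetoidL V).r _ _)
    rw [Quotient.out_eq, Quotient.out_eq] at h3
    exact h3
  · rintro ⟨O, v, hv, rfl⟩
    refine ⟨Quotient.mk (orbitSetoidL V) ⟨v, hv⟩, ?_⟩
    apply Subtype.ext
    show orbitOf V (Quotient.out (Quotient.mk (orbitSetoidL V) ⟨v, hv⟩)).1 = orbitOf V v
    rw [orbitOf_eq_iff]
    exact Quotient.exact (Quotient.out_eq (Quotient.mk (orbitSetoidL V) ⟨v, hv⟩))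

/-- The two spaces of invariant functionals are isomorphic. -/
noncomputable def invEquiv (V : Finset (Fin n → ℤ)) : invariants V ≃ₗ[ℚ] invariantsL V where
  toFun m := ⟨m.1.toIntLinearMap, fun g hg x => m.2 _ (isAut_toAddEquiv hg) x⟩
  invFun m := ⟨m.1.toAddMonoidHom, fun g hg x => m.2 _ (mem_autGroup_of_isAut hg) x⟩
  map_add' := fun _ _ => rfl
  map_smul' := fun _ _ => rfl
  left_inv := fun _ => rfl
  right_inv := fun _ => rfl

lemma invRank_eq : invRank V = invRankL V := (invEquiv V).finrank_eq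

/-- The main theorem in terms of the definitions of the statement. -/
theorem main' (hV : IsSmoothFano V) (hk : numOrbits V = invRank V + 1) :
    VertexTransitive V ∨
      (16 ≤ n ∧ n + 6 ≤ V.card ∧ 2 ≤ numOrbits V ∧
        ∃ (q : ℕ) (m : (Fin n → ℤ) →+ ℤ), numOrbits V ≤ q ∧ ∀ v ∈ V, (q : ℤ) ∣ m v - 1) := by
  rw [numOrbits_eq, invRank_eq] at hk
  rw [vertexTransitive_iff, numOrbits_eq]
  rcases main hV hk with h | ⟨h1, h2, h3, q, m, h4, h5⟩
  · exact Or.inl h
  · exact Or.inr ⟨h1, h2, h3, q, m.toAddMonoidHom, h4, h5⟩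

end Pool.Agent.FBL
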