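import Pool.Agent.FBL.Orbits

namespace Pool.Agent.FBL

open Finset

variable {n : ℕ} {V : Finset (Fin n → ℤ)}

/-- The classes of the divisors of `w` and `w'` are equal. -/
def Eqv (V : Finset (Fin n → ℤ)) (w w' : Fin n → ℤ) : Prop :=
  ∃ m : (Fin n → ℤ) →ₗ[ℤ] ℤ, ∀ v ∈ V,
    m v = (if v = w then 1 else 0) - (if v = w' then 1 else 0)

lemma Eqv.refl (w : Fin n → ℤ) : Eqv V w w := ⟨0, by intro v _; simp⟩

lemma Eqv.symm {w w' : Fin n → ℤ} (h : Eqv V w w') : Eqv V w' w := by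
  obtain ⟨m, hm⟩ := h
  exact ⟨-m, by intro v hv; rw [LinearMap.neg_apply, hm v hv]; ring⟩

lemma Eqv.trans {w w' w'' : Fin n → ℤ} (h : Eqv V w w') (h' : Eqv V w' w'') : Eqv V w w'' := by
  obtain ⟨m, hm⟩ := h
  obtain ⟨m', hm'⟩ := h'
  exact ⟨m + m', by intro v hv; rw [LinearMap.add_apply, hm v hv, hm' v hv]; ring⟩

lemma Eqv.rel {w w' : Fin n → ℤ} (h : Eqv V w w') (hw : w ∈ V) (hw' : w' ∈ V)
    {γ : (Fin n → ℤ) → ℤ} (hγ : IsRel V γ) : γ w = γ w' := by
  obtain ⟨m, hm⟩ := h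
  have h1 := hγ.map m
  have h2 : ∑ v ∈ V, γ v * m v =
      ∑ v ∈ V, ((if v = w then γ v else 0) - (if v = w' then γ v else 0)) := by
    apply Finset.sum_congr rfl
    intro v hv
    rw [hm v hv]
    split_ifs <;> ring
  rw [h2, Finset.sum_sub_distrib, Finset.sum_ite_eq' V w, Finset.sum_ite_eq' V w', if_pos hw,
    if_pos hw'] at h1
  linarith

lemma Eqv.block {w w' : Fin n → ℤ} (h : Eqv V w w') (hw : w ∈ V) (hw' : w' ∈ V)
    {P : Finset (Fin n → ℤ)} (hP : IsBlock V P) (hwP : w ∈ P) : w' ∈ P := by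
  have := h.rel hw hw' hP.isRel
  by_contra hne
  simp [hwP, hne] at this

lemma Eqv.map {w w' : Fin n → ℤ} (h : Eqv V w w') {g : (Fin n → ℤ) ≃ₗ[ℤ] (Fin n → ℤ)}
    (hg : g ∈ autGroup V) : Eqv V (g w) (g w') := by
  obtain ⟨m, hm⟩ := h
  refine ⟨m ∘ₗ (g.symm : (Fin n → ℤ) →ₗ[ℤ] (Fin n → ℤ)), ?_⟩
  intro v hv
  have h1 : g.symm v ∈ V := by
    rw [← hg]
    simpa using hv
  have h2 : (m ∘ₗ (g.symm : (Fin n → ℤ) →ₗ[ℤ] (Fin n → ℤ))) v = m (g.symm v) := rfl
  rw [h2, hm _ h1]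
  have h3 : ∀ x, (g.symm v = x) ↔ (v = g x) := by
    intro x
    constructor
    · rintro rfl
      simp
    · rintro rfl
      simp
  simp only [h3]

/-- Equivalent elements are exchanged by an automorphism. -/
lemma Eqv.aut {w w' : Fin n → ℤ} (h : Eqv V w w') (hw : w ∈ V) (hw' : w' ∈ V) :
    ∃ g ∈ autGroup V, g w = w' := by
  classical
  by_cases hne : w = w'
  · exact ⟨1, Subgroup.one_mem _, by rw [hne]; rfl⟩
  obtain ⟨m, hm⟩ := h
  have hmw : m w = 1 := by rw [hm w hw]; simp [hne]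
  have hmw' : m w' = -1 := by rw [hm w' hw']; simp [Ne.symm hne]
  have hf : m (w - w') = 2 := by rw [map_sub, hmw, hmw']; norm_num
  have hmap : ∀ v, Module.reflection hf v = v - m v • (w - w') := by
    intro v
    rw [Module.reflection_apply]
  have hw1 : Module.reflection hf w = w' := by
    rw [hmap, hmw]
    simp
  have hw2 : Module.reflection hf w' = w := by
    rw [hmap, hmw']
    simp
  have hV : ∀ v ∈ V, Module.reflection hf v ∈ V := by
    intro v hv
    by_cases h1 : v = w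
    · rw [h1, hw1]
      exact hw'
    · by_cases h2 : v = w'
      · rw [h2, hw2]
        exact hw
      · have : m v = 0 := by rw [hm v hv]; simp [h1, h2]
        rw [hmap, this]
        simpa using hv
  refine ⟨Module.reflection hf, ?_, hw1⟩
  intro v
  constructor
  · intro h
    have := hV _ h
    rwa [Module.involutive_reflection hf] at this
  · exact hV v

lemma Eqv.eq_of_off {w w' : Fin n → ℤ} (h : Eqv V w w') {u : (Fin n → ℤ) →ₗ[ℤ] ℤ}
    (hu : IsFct V u) (hw : w ∈ V) (h1 : u w ≠ 1) (h2 : u w' ≠ 1) : w = w' := by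
  obtain ⟨m, hm⟩ := h
  have : m = 0 := by
    apply hu.ext
    intro v hv hv1
    rw [hm v hv]
    have h3 : v ≠ w := by rintro rfl; exact h1 hv1
    have h4 : v ≠ w' := by rintro rfl; exact h2 hv1
    simp [h3, h4]
  have h5 := hm w hw
  rw [this] at h5
  by_contra hne
  simp [hne] at h5

/-- The class of `w`. -/
noncomputable def cl (V : Finset (Fin n → ℤ)) (w : Fin n → ℤ) : Finset (Fin n → ℤ) := by
  classical
  exact V.filter (fun v => Eqv V w v)

lemma mem_cl {w v : Fin n → ℤ} : v ∈ cl V w ↔ v ∈ V ∧ Eqv V w v := by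
  classical
  simp [cl]

lemma cl_eq_iff {w w' : Fin n → ℤ} (hw : w ∈ V) : cl V w = cl V w' ↔ Eqv V w w' := by
  constructor
  · intro h
    have h1 : w ∈ cl V w := mem_cl.mpr ⟨hw, Eqv.refl _⟩
    rw [h] at h1
    exact (mem_cl.mp h1).2.symm
  · intro h
    ext v
    rw [mem_cl, mem_cl]
    constructor
    · rintro ⟨h1, h2⟩
      exact ⟨h1, h.symm.trans h2⟩
    · rintro ⟨h1, h2⟩
      exact ⟨h1, h.trans h2⟩

lemma cl_card {w : Fin n → ℤ} {g : (Fin n → ℤ) ≃ₗ[ℤ] (Fin n → ℤ)}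
    (hg : g ∈ autGroup V) : (cl V (g w)).card = (cl V w).card := by
  classical
  have h1 : cl V (g w) = (cl V w).image g := by
    ext v
    rw [Finset.mem_image]
    constructor
    · intro h
      rw [mem_cl] at h
      refine ⟨g.symm v, ?_, by simp⟩
      rw [mem_cl]
      have h3 : g.symm v ∈ V := by
        rw [← hg]
        simpa using h.1
      refine ⟨h3, ?_⟩
      have h4 := h.2.map (Subgroup.inv_mem _ hg)
      have h5 : g⁻¹ (g w) = w := by
        have : (g⁻¹ * g) w = w := by simp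
        simpa using this
      have h6 : g⁻¹ v = g.symm v := rfl
      rw [h5, h6] at h4
      exact h4
    · rintro ⟨x, hx, rfl⟩
      rw [mem_cl] at hx ⊢
      exact ⟨(hg x).mpr hx.1, hx.2.map hg⟩
  rw [h1]
  exact Finset.card_image_of_injective _ g.injective

/-- In each block, each orbit has at least `h` classes. -/
lemma orbit_classes {q h : ℕ} (hq : 0 < q)
    (hr : ∀ v0 ∈ V, ∃ r : ℚ, 0 < r ∧ ∀ γ : (Fin n → ℤ) → ℤ, IsRel V γ →
      ((∑ v ∈ orb V v0, γ v : ℤ) : ℚ) = r * ((∑ v ∈ V, γ v : ℤ) : ℚ))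
    (hγ : ∃ γ, IsRel V γ ∧ ∑ v ∈ V, γ v = q)
    {P : Finset (Fin n → ℤ)} (hP : IsBlock V P) (hcard : P.card = q * h)
    {v0 : Fin n → ℤ} (hv0 : v0 ∈ V) :
    h ≤ ((P.filter (fun v => v ∈ orb V v0)).image (cl V)).card := by
  classical
  obtain ⟨γ, hγ, hγq⟩ := hγ
  obtain ⟨r, hr0, hr⟩ := hr v0 hv0
  set μ := (cl V v0).card with hμ
  have hμ0 : 0 < μ := Finset.card_pos.mpr ⟨v0, mem_cl.mpr ⟨hv0, Eqv.refl _⟩⟩
  have hμw : ∀ w ∈ orb V v0, (cl V w).card = μ := by
    intro w hw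
    obtain ⟨_, g, hg, rfl⟩ := mem_orb.mp hw
    exact cl_card hg
  have hclorb : ∀ w ∈ orb V v0, ∀ x ∈ cl V w, x ∈ orb V v0 := by
    intro w hw x hx
    obtain ⟨hw1, g, hg, h1⟩ := mem_orb.mp hw
    obtain ⟨hx1, hx2⟩ := mem_cl.mp hx
    obtain ⟨g', hg', h2⟩ := hx2.aut hw1 hx1
    refine mem_orb.mpr ⟨hx1, g' * g, Subgroup.mul_mem _ hg' hg, ?_⟩
    rw [LinearEquiv.mul_apply, h1, h2]
  set a := ∑ v ∈ orb V v0, γ v with ha
  have haq : (a : ℚ) = r * q := by
    have := hr γ hγ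
    rw [hγq] at this
    exact_mod_cast this
  have ha0 : 0 < a := by
    have : (0:ℚ) < a := by
      rw [haq]
      positivity
    exact_mod_cast this
  -- `μ` divides `a`
  have hdvd : (μ : ℤ) ∣ a := by
    rw [ha, ← Finset.sum_fiberwise_of_maps_to (g := cl V) (t := (orb V v0).image (cl V))
      (fun x hx => Finset.mem_image_of_mem _ hx)]
    apply Finset.dvd_sum
    intro C hC
    obtain ⟨w, hw, rfl⟩ := Finset.mem_image.mp hC
    have hwV := (mem_orb.mp hw).1
    have h1 : (orb V v0).filter (fun x => cl V x = cl V w) = cl V w := by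
      ext x
      rw [Finset.mem_filter]
      constructor
      · rintro ⟨h1, h2⟩
        rw [← h2]
        exact mem_cl.mpr ⟨(mem_orb.mp h1).1, Eqv.refl _⟩
      · intro hx
        refine ⟨hclorb w hw x hx, ?_⟩
        exact ((cl_eq_iff hwV).mpr (mem_cl.mp hx).2).symm
    rw [h1, Finset.sum_congr rfl (g := fun _ => γ w), Finset.sum_const, hμw w hw]
    · exact ⟨γ w, by simp⟩
    · intro x hx
      exact ((mem_cl.mp hx).2.rel hwV (mem_cl.mp hx).1 hγ).symm
  obtain ⟨a', ha'⟩ := hdvd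
  have ha'0 : 0 < a' := by
    by_contra hneg
    push Not at hneg
    have : (0:ℤ) < μ := by exact_mod_cast hμ0
    nlinarith
  -- the number of elements of the orbit in `P`
  have hPO : ((P.filter (fun v => v ∈ orb V v0)).card : ℤ) = a * h := by
    have h1 := hr _ hP.isRel
    rw [Finset.sum_ite_mem, Finset.sum_ite_mem, Finset.inter_eq_right.mpr hP.sub] at h1
    simp only [Finset.sum_const, smul_eq_mul, mul_one, nsmul_eq_mul] at h1
    have h2 : orb V v0 ∩ P = P.filter (fun v => v ∈ orb V v0) := by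
      ext x
      simp only [Finset.mem_inter, Finset.mem_filter]
      tauto
    rw [h2, hcard] at h1
    have h3 : ((P.filter (fun v => v ∈ orb V v0)).card : ℚ) = a * h := by
      rw [haq]
      push_cast at h1
      rw [h1]
      ring
    exact_mod_cast h3
  have hPO2 : (P.filter (fun v => v ∈ orb V v0)).card =
      ((P.filter (fun v => v ∈ orb V v0)).image (cl V)).card * μ := by
    rw [Finset.card_eq_sum_card_image (cl V)]
    rw [Finset.sum_congr rfl (g := fun _ => μ), Finset.sum_const, smul_eq_mul]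
    intro C hC
    obtain ⟨w, hw, rfl⟩ := Finset.mem_image.mp hC
    rw [Finset.mem_filter] at hw
    have hwV := (mem_orb.mp hw.2).1
    rw [← hμw w hw.2]
    congr 1
    ext x
    rw [Finset.mem_filter, Finset.mem_filter]
    constructor
    · rintro ⟨⟨h1, h2⟩, h3⟩
      rw [← h3]
      exact mem_cl.mpr ⟨(mem_orb.mp h2).1, Eqv.refl _⟩
    · intro hx
      refine ⟨⟨?_, hclorb w hw.2 x hx⟩, ?_⟩
      · exact (mem_cl.mp hx).2.block hwV (mem_cl.mp hx).1 hP hw.1
      · exact ((cl_eq_iff hwV).mpr (mem_cl.mp hx).2).symm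
  set N := ((P.filter (fun v => v ∈ orb V v0)).image (cl V)).card with hN
  have h5 : (N : ℤ) * μ = a' * h * μ := by
    rw [hPO2, ha'] at hPO
    push_cast at hPO
    linarith
  have h6 : (N : ℤ) = a' * h := by
    have : (0:ℤ) < μ := by exact_mod_cast hμ0
    exact mul_right_cancel₀ (ne_of_gt this) h5
  have h7 : (h : ℤ) ≤ N := by
    rw [h6]
    have : (0:ℤ) ≤ h := by positivity
    nlinarith
  exact_mod_cast h7

end Pool.Agent.FBL
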