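import Pool.Agent.FBL.DefsL

namespace Pool.Agent.FBL

open Finset

variable {n : ℕ} {V : Finset (Fin n → ℤ)}

/-- The integral functional `u` defines a facet. -/
structure IsFct (V : Finset (Fin n → ℤ)) (u : (Fin n → ℤ) →ₗ[ℤ] ℤ) : Prop where
  le_one : ∀ v ∈ V, u v ≤ 1
  indep : LinearIndepOn ℤ id {v | v ∈ V ∧ u v = 1}
  span : Submodule.span ℤ {v | v ∈ V ∧ u v = 1} = ⊤

/-- Two linear maps that agree on a facet are equal. -/
lemma IsFct.ext {u : (Fin n → ℤ) →ₗ[ℤ] ℤ} (hu : IsFct V u) {M : Type*} [AddCommGroup M]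
    {φ ψ : (Fin n → ℤ) →ₗ[ℤ] M} (h : ∀ v ∈ V, u v = 1 → φ v = ψ v) : φ = ψ := by
  apply LinearMap.ext_on hu.span
  rintro v ⟨hv, hv1⟩
  exact h v hv hv1

/-- Every function on a facet extends to a functional. -/
lemma IsFct.exists_ext {u : (Fin n → ℤ) →ₗ[ℤ] ℤ} (hu : IsFct V u) (f : (Fin n → ℤ) → ℤ) :
    ∃ m : (Fin n → ℤ) →ₗ[ℤ] ℤ, ∀ v ∈ V, u v = 1 → m v = f v := by
  let b := Module.Basis.mk (R := ℤ) (M := Fin n → ℤ)
    (v := fun x : {v | v ∈ V ∧ u v = 1} => (x : Fin n → ℤ)) hu.indep (by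
      rw [Subtype.range_coe]
      exact hu.span.ge)
  refine ⟨b.constr ℤ (fun x => f x), ?_⟩
  intro v hv hv1
  have h1 : b ⟨v, hv, hv1⟩ = v := Module.Basis.mk_apply _ _ _
  have h2 := b.constr_basis ℤ (fun x => f x) ⟨v, hv, hv1⟩
  rw [h1] at h2
  exact h2

/-- The facet has `n` vertices. -/
lemma IsFct.card {u : (Fin n → ℤ) →ₗ[ℤ] ℤ} (hu : IsFct V u) :
    (V.filter (fun v => u v = 1)).card = n := by
  classical
  let b := Module.Basis.mk (R := ℤ) (M := Fin n → ℤ)
    (v := fun x : {v | v ∈ V ∧ u v = 1} => (x : Fin n → ℤ)) hu.indep (by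
      rw [Subtype.range_coe]
      exact hu.span.ge)
  have h1 := Module.finrank_eq_nat_card_basis b
  rw [Module.finrank_fin_fun] at h1
  refine Eq.trans ?_ h1.symm
  have h2 : {v | v ∈ V ∧ u v = 1} = ((V.filter (fun v => u v = 1) : Finset _) : Set _) := by
    ext v
    simp
  rw [h2]
  simp

/-- Expansion of a lattice point in the basis given by a facet. -/
lemma IsFct.expand {u : (Fin n → ℤ) →ₗ[ℤ] ℤ} (hu : IsFct V u) (x : Fin n → ℤ) :
    ∃ b : (Fin n → ℤ) → ℤ, x = ∑ w ∈ V.filter (fun v => u v = 1), b w • w := by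
  classical
  have hx : x ∈ Submodule.span ℤ (((V.filter (fun v => u v = 1) : Finset _) :
      Set (Fin n → ℤ))) := by
    have h2 : {v | v ∈ V ∧ u v = 1} = ((V.filter (fun v => u v = 1) : Finset _) : Set _) := by
      ext v
      simp
    rw [← h2, hu.span]
    trivial
  rw [Submodule.mem_span_finset] at hx
  obtain ⟨f, hf, hx⟩ := hx
  exact ⟨f, hx.symm⟩

/-- A positive functional exists at each nonzero functional: `L1`. -/
lemma IsSmoothFano.pos (hV : IsSmoothFano V) (Φ : (Fin n → ℝ) →ₗ[ℝ] ℝ)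
    (h : ∀ v ∈ V, Φ (toR v) ≤ 0) : Φ = 0 := by
  by_contra hne
  -- Φ ≤ 0 on the convex hull
  have h1 : ∀ x ∈ convexHull ℝ (toR '' {v | v ∈ V}), Φ x ≤ 0 := by
    intro x hx
    have hc : Convex ℝ {x | Φ x ≤ 0} := by
      exact convex_halfSpace_le (LinearMap.isLinear Φ) 0
    have hsub : toR '' {v | v ∈ V} ⊆ {x | Φ x ≤ 0} := by
      rintro _ ⟨v, hv, rfl⟩
      exact h v hv
    exact convexHull_min hsub hc hx
  -- a direction on which Φ is positive
  obtain ⟨y, hy⟩ : ∃ y, 0 < Φ y := by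
    by_contra hno
    push Not at hno
    apply hne
    ext1 i
    ext
    have a := hno (Pi.single i 1)
    have b := hno (-(Pi.single i 1))
    rw [map_neg] at b
    simp only [LinearMap.coe_comp, LinearMap.coe_single, Function.comp_apply,
      LinearMap.zero_apply, LinearMap.zero_comp]
    linarith
  have h2 : ∃ ε : ℝ, 0 < ε ∧ ε • y ∈ convexHull ℝ (toR '' {v | v ∈ V}) := by
    have hnhds : convexHull ℝ (toR '' {v | v ∈ V}) ∈ nhds (0 : Fin n → ℝ) :=
      mem_interior_iff_mem_nhds.mp hV.zero_mem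
    have hcont : Filter.Tendsto (fun ε : ℝ => ε • y) (nhds 0) (nhds (0 : Fin n → ℝ)) := by
      have : Continuous (fun ε : ℝ => ε • y) := by fun_prop
      simpa using this.tendsto 0
    have h3 := hcont.eventually hnhds
    have h4 : ∀ᶠ ε in nhdsWithin (0:ℝ) (Set.Ioi 0), ε • y ∈ convexHull ℝ (toR '' {v | v ∈ V}) :=
      h3.filter_mono nhdsWithin_le_nhds
    obtain ⟨ε, hε, hε'⟩ := (h4.and self_mem_nhdsWithin).exists
    exact ⟨ε, hε', hε⟩
  obtain ⟨ε, hε, hmem⟩ := h2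
  have h5 := h1 _ hmem
  rw [map_smul, smul_eq_mul] at h5
  nlinarith [mul_pos hε hy]

/-- A real functional on the lattice extends to the real space. -/
lemma exists_real_ext (φ : (Fin n → ℤ) →ₗ[ℤ] ℝ) :
    ∃ Φ : (Fin n → ℝ) →ₗ[ℝ] ℝ, ∀ v, Φ (toR v) = φ v := by
  classical
  refine ⟨∑ i, (φ (Pi.single i 1)) • LinearMap.proj i, ?_⟩
  intro v
  have hv : v = ∑ i, v i • (Pi.single i (1:ℤ) : Fin n → ℤ) := by
    ext j
    simp [Finset.sum_apply, Pi.single_apply]
  conv_rhs => rw [hv]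
  rw [map_sum]
  simp only [LinearMap.sum_apply, LinearMap.smul_apply, LinearMap.proj_apply, smul_eq_mul, toR,
    map_smul]
  apply Finset.sum_congr rfl
  intro i _
  rw [zsmul_eq_mul, mul_comm]

lemma IsSmoothFano.posZ (hV : IsSmoothFano V) (φ : (Fin n → ℤ) →ₗ[ℤ] ℝ)
    (h : ∀ v ∈ V, φ v ≤ 0) : φ = 0 := by
  obtain ⟨Φ, hΦ⟩ := exists_real_ext φ
  have h1 : Φ = 0 := hV.pos Φ (fun v hv => by rw [hΦ]; exact h v hv)
  apply LinearMap.ext
  intro x
  rw [← hΦ, h1]
  simp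

lemma IsSmoothFano.nonempty (hV : IsSmoothFano V) : V.Nonempty := by
  rw [Finset.nonempty_iff_ne_empty]
  rintro rfl
  have := hV.zero_mem
  simp at this

/-- `L0` for real functionals on the real space. -/
lemma IsSmoothFano.exists_span (hV : IsSmoothFano V) :
    ∀ (k : ℕ) (Φ : (Fin n → ℝ) →ₗ[ℝ] ℝ), (∀ v ∈ V, Φ (toR v) ≤ 1) →
      (V.filter (fun v => Φ (toR v) ≠ 1)).card ≤ k →
      ∃ Ψ : (Fin n → ℝ) →ₗ[ℝ] ℝ, (∀ v ∈ V, Ψ (toR v) ≤ 1) ∧
        (∀ v ∈ V, Φ (toR v) = 1 → Ψ (toR v) = 1) ∧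
        Submodule.span ℝ (toR '' {v | v ∈ V ∧ Ψ (toR v) = 1}) = ⊤ := by
  classical
  intro k
  induction k with
  | zero =>
    intro Φ hΦ hk
    refine ⟨Φ, hΦ, fun _ _ h => h, ?_⟩
    by_contra hne
    obtain ⟨f, hf, hle⟩ := Submodule.exists_le_ker_of_lt_top _ (lt_top_iff_ne_top.mpr hne)
    apply hf
    apply hV.pos
    intro v hv
    have h1 : Φ (toR v) = 1 := by
      by_contra h2
      have : v ∈ V.filter (fun v => Φ (toR v) ≠ 1) := by simp [hv, h2]
      have := Finset.card_pos.mpr ⟨v, this⟩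
      omega
    have h3 : toR v ∈ LinearMap.ker f := hle (Submodule.subset_span ⟨v, ⟨hv, h1⟩, rfl⟩)
    rw [LinearMap.mem_ker] at h3
    rw [h3]
  | succ k ih =>
    intro Φ hΦ hk
    by_cases hsp : Submodule.span ℝ (toR '' {v | v ∈ V ∧ Φ (toR v) = 1}) = ⊤
    · exact ⟨Φ, hΦ, fun _ _ h => h, hsp⟩
    obtain ⟨f, hf, hle⟩ := Submodule.exists_le_ker_of_lt_top _ (lt_top_iff_ne_top.mpr hsp)
    have hf0 : ∀ v ∈ V, Φ (toR v) = 1 → f (toR v) = 0 := by
      intro v hv h1
      have h3 : toR v ∈ LinearMap.ker f := hle (Submodule.subset_span ⟨v, ⟨hv, h1⟩, rfl⟩)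
      rwa [LinearMap.mem_ker] at h3
    have hS : (V.filter (fun v => 0 < f (toR v))).Nonempty := by
      by_contra hS
      rw [Finset.not_nonempty_iff_eq_empty, Finset.filter_eq_empty_iff] at hS
      apply hf
      apply hV.pos
      intro v hv
      exact not_lt.mp (hS hv)
    obtain ⟨y, hy, hmin⟩ := Finset.exists_min_image _
      (fun v => (1 - Φ (toR v)) / f (toR v)) hS
    rw [Finset.mem_filter] at hy
    obtain ⟨hyV, hyf⟩ := hy
    have hy1 : Φ (toR y) < 1 := by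
      rcases lt_or_eq_of_le (hΦ y hyV) with h | h
      · exact h
      · rw [hf0 y hyV h] at hyf
        exact absurd hyf (lt_irrefl _)
    set l := (1 - Φ (toR y)) / f (toR y) with hl
    have hl0 : 0 < l := div_pos (by linarith) hyf
    have hle1 : ∀ v ∈ V, (Φ + l • f) (toR v) ≤ 1 := by
      intro v hv
      simp only [LinearMap.add_apply, LinearMap.smul_apply, smul_eq_mul]
      rcases le_or_gt (f (toR v)) 0 with h | h
      · have := hΦ v hv
        nlinarith
      · have h1 : l ≤ (1 - Φ (toR v)) / f (toR v) :=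
          hmin v (by simp [hv, h])
        rw [le_div_iff₀ h] at h1
        linarith
    have htight : ∀ v ∈ V, Φ (toR v) = 1 → (Φ + l • f) (toR v) = 1 := by
      intro v hv h1
      simp [h1, hf0 v hv h1]
    have hytight : (Φ + l • f) (toR y) = 1 := by
      simp only [LinearMap.add_apply, LinearMap.smul_apply, smul_eq_mul]
      rw [hl]
      field_simp
      ring
    have hcard : (V.filter (fun v => (Φ + l • f) (toR v) ≠ 1)).card ≤ k := by
      have hss : V.filter (fun v => (Φ + l • f) (toR v) ≠ 1) ⊂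
          V.filter (fun v => Φ (toR v) ≠ 1) := by
        rw [Finset.ssubset_iff_of_subset]
        · refine ⟨y, ?_, ?_⟩
          · simp [hyV, ne_of_lt hy1]
          · simp only [Finset.mem_filter, not_and, not_not]
            intro _
            exact hytight
        · intro v hv
          rw [Finset.mem_filter] at hv ⊢
          exact ⟨hv.1, fun h => hv.2 (htight v hv.1 h)⟩
      have := Finset.card_lt_card hss
      omega
    obtain ⟨Ψ, h1, h2, h3⟩ := ih _ hle1 hcard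
    exact ⟨Ψ, h1, fun v hv h => h2 v hv (htight v hv h), h3⟩

/-- `L0`: a supporting functional extends to a facet. -/
lemma IsSmoothFano.exists_fct (hV : IsSmoothFano V) (φ : (Fin n → ℤ) →ₗ[ℤ] ℝ)
    (h : ∀ v ∈ V, φ v ≤ 1) :
    ∃ u : (Fin n → ℤ) →ₗ[ℤ] ℤ, IsFct V u ∧ ∀ v ∈ V, φ v = 1 → u v = 1 := by
  classical
  obtain ⟨Φ, hΦ⟩ := exists_real_ext φ
  obtain ⟨Ψ, h1, h2, h3⟩ := hV.exists_span _ Φ (fun v hv => by rw [hΦ]; exact h v hv) le_rfl
  obtain ⟨hi, hs⟩ := hV.facet Ψ h1 h3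
  -- the all-ones functional
  let b := Module.Basis.mk (R := ℤ) (M := Fin n → ℤ)
    (v := fun x : {v | v ∈ V ∧ Ψ (toR v) = 1} => (x : Fin n → ℤ)) hi (by
      rw [Subtype.range_coe]
      exact hs.ge)
  obtain ⟨u, hu⟩ : ∃ u : (Fin n → ℤ) →ₗ[ℤ] ℤ, ∀ v ∈ V, Ψ (toR v) = 1 → u v = 1 := by
    refine ⟨b.constr ℤ (fun _ => 1), ?_⟩
    intro v hv hv1
    have h1 : b ⟨v, hv, hv1⟩ = v := Module.Basis.mk_apply _ _ _
    have h2 := b.constr_basis ℤ (fun _ => (1:ℤ)) ⟨v, hv, hv1⟩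
    rw [h1] at h2
    exact h2
  -- the real functional agrees with `u`
  let toRl : (Fin n → ℤ) →ₗ[ℤ] (Fin n → ℝ) :=
    { toFun := toR
      map_add' := by
        intro x y
        ext i
        simp [toR]
      map_smul' := by
        intro c x
        ext i
        simp [toR] }
  have key : (Int.castAddHom ℝ).toIntLinearMap ∘ₗ u = (Ψ.restrictScalars ℤ) ∘ₗ toRl := by
    apply LinearMap.ext_on hs
    rintro v ⟨hv, hv1⟩
    have : toRl v = toR v := rfl
    simp [this, hv1, hu v hv hv1]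
  have key' : ∀ v, (u v : ℝ) = Ψ (toR v) := by
    intro v
    have := LinearMap.congr_fun key v
    have h5 : toRl v = toR v := rfl
    simpa [h5] using this
  have hset : {v | v ∈ V ∧ u v = 1} = {v | v ∈ V ∧ Ψ (toR v) = 1} := by
    ext v
    constructor
    · rintro ⟨a, b⟩
      exact ⟨a, by rw [← key', b]; simp⟩
    · rintro ⟨a, b⟩
      rw [← key'] at b
      exact ⟨a, by exact_mod_cast b⟩
  refine ⟨u, ⟨?_, ?_, ?_⟩, ?_⟩
  · intro v hv
    have := h1 v hv
    rw [← key'] at this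
    exact_mod_cast this
  · rw [hset]
    exact hi
  · rw [hset]
    exact hs
  · intro v hv hv1
    apply hu v hv
    apply h2 v hv
    rw [hΦ]
    exact hv1

end Pool.Agent.FBL
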