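import Pool.Agent.FBL.Setup

namespace Pool.Agent.FBL

open Finset

variable {n : ℕ} {V : Finset (Fin n → ℤ)} {q h : ℕ}

/-- The set of the blocks. -/
noncomputable def Bl (V : Finset (Fin n → ℤ)) : Finset (Finset (Fin n → ℤ)) := by
  classical
  exact V.powerset.filter (fun P => IsBlock V P)

lemma mem_Bl {P : Finset (Fin n → ℤ)} : P ∈ Bl V ↔ IsBlock V P := by
  classical
  simp only [Bl, Finset.mem_filter, Finset.mem_powerset]
  exact ⟨fun h => h.2, fun h => ⟨h.sub, h⟩⟩

/-- The number `s` of the blocks. -/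
noncomputable def nb (V : Finset (Fin n → ℤ)) : ℕ := (Bl V).card

lemma Bl_disj : ((Bl V : Finset (Finset (Fin n → ℤ))) : Set (Finset (Fin n → ℤ))).PairwiseDisjoint
    id := by
  classical
  intro P hP Q hQ hne
  have hP' := mem_Bl.mp (Finset.mem_coe.mp hP)
  have hQ' := mem_Bl.mp (Finset.mem_coe.mp hQ)
  rw [Function.onFun, Finset.disjoint_left]
  intro x hx hx'
  exact hne (hP'.eq hQ' hx hx')

variable (S : Setup V q h)

include S

lemma Setup.card_eq : V.card = nb V * (q * h) := by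
  classical
  have h1 : V = (Bl V).biUnion id := by
    ext v
    rw [Finset.mem_biUnion]
    constructor
    · intro hv
      obtain ⟨P, hP, hvP⟩ := S.cover v hv
      exact ⟨P, mem_Bl.mpr hP, hvP⟩
    · rintro ⟨P, hP, hvP⟩
      exact (mem_Bl.mp hP).sub hvP
  conv_lhs => rw [h1]
  rw [Finset.card_biUnion Bl_disj]
  rw [Finset.sum_congr rfl (g := fun _ => q * h)]
  · rw [Finset.sum_const, smul_eq_mul, nb]
  · intro P hP
    exact S.card P (mem_Bl.mp hP)

lemma Setup.nb_pos : 1 ≤ nb V := by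
  obtain ⟨v0, hv0⟩ := S.fano.nonempty
  obtain ⟨P0, hP0, _⟩ := S.cover v0 hv0
  exact Finset.card_pos.mpr ⟨P0, mem_Bl.mpr hP0⟩

variable {u : (Fin n → ℤ) →ₗ[ℤ] ℤ} (hu : IsFct V u)

include hu

/-- The Picard number counted by blocks. -/
lemma Setup.rho_eq : n + ∑ P ∈ Bl V, (off u P).card = V.card := by
  classical
  have h1 : V.filter (fun v => u v ≠ 1) = (Bl V).biUnion (off u) := by
    ext v
    rw [Finset.mem_biUnion, Finset.mem_filter]
    constructor
    · rintro ⟨hv, hv1⟩
      obtain ⟨P, hP, hvP⟩ := S.cover v hv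
      exact ⟨P, mem_Bl.mpr hP, mem_off.mpr ⟨hvP, hv1⟩⟩
    · rintro ⟨P, hP, hvP⟩
      exact ⟨(mem_Bl.mp hP).sub (mem_off.mp hvP).1, (mem_off.mp hvP).2⟩
  have h2 : (V.filter (fun v => u v ≠ 1)).card = ∑ P ∈ Bl V, (off u P).card := by
    rw [h1, Finset.card_biUnion]
    intro P hP Q hQ hne
    rw [Function.onFun, Finset.disjoint_left]
    intro x hx hx'
    exact hne ((mem_Bl.mp hP).eq (mem_Bl.mp hQ) (mem_off.mp hx).1 (mem_off.mp hx').1)
  rw [← h2]
  have h3 := Finset.card_filter_add_card_filter_not (s := V) (fun v => u v = 1)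
  rw [hu.card] at h3
  exact h3

omit hu in
/-- A facet containing `P` minus `w`. -/
lemma Setup.exists_single {P : Finset (Fin n → ℤ)} (hP : IsBlock V P) {w : Fin n → ℤ}
    (hw : w ∈ P) : ∃ u, IsFct V u ∧ off u P = {w} ∧ sl q u w = h := by
  obtain ⟨u, hu, huP⟩ := hP.face w hw
  have h1 : off u P = {w} := by
    apply Finset.Subset.antisymm
    · intro v hv
      rw [mem_off] at hv
      rw [Finset.mem_singleton]
      by_contra hne
      exact hv.2 (huP v hv.1 hne)
    · intro v hv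
      rw [Finset.mem_singleton] at hv
      rw [hv]
      by_contra hno
      have h2 : off u P = ∅ := by
        rw [Finset.eq_empty_iff_forall_notMem]
        intro x hx
        have hx' := mem_off.mp hx
        by_cases hxw : x = w
        · rw [hxw] at hx
          exact hno hx
        · exact hx'.2 (huP x hx'.1 hxw)
      have h3 := S.off_card_pos hu hP
      rw [h2] at h3
      simp at h3
  have h4 := S.off_sum hu hP
  rw [h1, Finset.sum_singleton] at h4
  exact ⟨u, hu, h1, h4⟩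

omit hu in
/-- Sum over `V` by blocks. -/
lemma Setup.sum_blocks {M : Type*} [AddCommMonoid M] (f : (Fin n → ℤ) → M) :
    ∑ v ∈ V, f v = ∑ P ∈ Bl V, ∑ v ∈ P, f v := by
  classical
  have h1 : V = (Bl V).biUnion id := by
    ext v
    rw [Finset.mem_biUnion]
    constructor
    · intro hv
      obtain ⟨P, hP, hvP⟩ := S.cover v hv
      exact ⟨P, mem_Bl.mpr hP, hvP⟩
    · rintro ⟨P, hP, hvP⟩
      exact (mem_Bl.mp hP).sub hvP
  conv_lhs => rw [h1]
  rw [Finset.sum_biUnion Bl_disj]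
  simp

omit hu in
/-- There are at least two facts: `h ≥ 2`. -/
lemma Setup.two_le_h : 2 ≤ h := by
  by_contra hlt
  have h0 := S.h0
  have h1 : h = 1 := by omega
  obtain ⟨v0, hv0⟩ := S.fano.nonempty
  obtain ⟨P0, hP0, hvP⟩ := S.cover v0 hv0
  obtain ⟨u, hu, _, _⟩ := S.exists_single hP0 hvP
  apply S.no_single_full hu
  intro P hP
  left
  have := S.off_card_le hu hP
  have := S.off_card_pos hu hP
  omega

omit hu in
lemma Setup.three_le_h : 3 ≤ h := by
  by_contra hlt
  have h0 := S.two_le_h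
  have h1 : h = 2 := by omega
  obtain ⟨v0, hv0⟩ := S.fano.nonempty
  obtain ⟨P0, hP0, hvP⟩ := S.cover v0 hv0
  obtain ⟨u, hu, _, _⟩ := S.exists_single hP0 hvP
  apply S.no_single_full hu
  intro P hP
  have := S.off_card_le hu hP
  have := S.off_card_pos hu hP
  omega

omit hu in
/-- The relation of degree 1, as a sum of block contributions. -/
lemma Setup.gen_sum : ∃ γ : (Fin n → ℤ) → ℤ, ∀ u, IsFct V u →
    ∑ P ∈ Bl V, ∑ v ∈ P, γ v * sl q u v = 1 := by
  obtain ⟨γ, hγ, hγq⟩ := S.gen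
  refine ⟨γ, ?_⟩
  intro u hu
  rw [← S.sum_blocks]
  have := S.sl_rel hu hγ
  rw [hγq] at this
  have h1 : (q:ℤ) * ∑ v ∈ V, γ v * sl q u v = q * 1 := by linarith
  exact mul_left_cancel₀ (ne_of_gt S.qpos) h1

omit hu in
/-- There are at least 3 blocks. -/
lemma Setup.three_le_nb : 3 ≤ nb V := by
  classical
  by_contra hlt
  have hh := S.two_le_h
  obtain ⟨γ, hγ⟩ := S.gen_sum
  have h1 := S.nb_pos
  -- the sum over a block at a facet opposite to one vertex
  have hone : ∀ P, IsBlock V P → ∀ w ∈ P, ∀ u, IsFct V u → off u P = {w} → sl q u w = h →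
      ∑ v ∈ P, γ v * sl q u v = γ w * h := by
    intro P hP w hw u hu h1 h2
    rw [Finset.sum_eq_single w]
    · rw [h2]
    · intro v hv hne
      have : sl q u v = 0 := by
        rw [S.sl_eq_zero hu (hP.sub hv)]
        by_contra h3
        have : v ∈ off u P := mem_off.mpr ⟨hv, h3⟩
        rw [h1, Finset.mem_singleton] at this
        exact hne this
      rw [this, mul_zero]
    · intro h3
      exact absurd hw h3
  have hcases : nb V = 1 ∨ nb V = 2 := by omega
  rcases hcases with hn | hn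
  · obtain ⟨P, hP⟩ := Finset.card_eq_one.mp hn
    have hPb : IsBlock V P := mem_Bl.mp (by rw [hP]; simp)
    obtain ⟨w, hw⟩ := hPb.nonempty
    obtain ⟨u, hu, h2, h3⟩ := S.exists_single hPb hw
    have h4 := hγ u hu
    rw [hP, Finset.sum_singleton, hone P hPb w hw u hu h2 h3] at h4
    have h5 : (h:ℤ) ∣ 1 := Dvd.intro_left _ h4
    have h6 := Int.isUnit_iff.mp (isUnit_of_dvd_one h5)
    omega
  · obtain ⟨P, Q, hne, hPQ⟩ := Finset.card_eq_two.mp hn
    have hPb : IsBlock V P := mem_Bl.mp (by rw [hPQ]; simp)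
    have hQb : IsBlock V Q := mem_Bl.mp (by rw [hPQ]; simp)
    obtain ⟨w, hw, hmax⟩ := Finset.exists_max_image P γ hPb.nonempty
    obtain ⟨x, hx, hmin⟩ := Finset.exists_min_image Q γ hQb.nonempty
    obtain ⟨u, hu, h2, h3⟩ := S.exists_single hPb hw
    obtain ⟨u', hu', h2', h3'⟩ := S.exists_single hQb hx
    have h4 := hγ u hu
    have h4' := hγ u' hu'
    rw [hPQ, Finset.sum_pair hne, hone P hPb w hw u hu h2 h3] at h4
    rw [hPQ, Finset.sum_pair hne, hone Q hQb x hx u' hu' h2' h3'] at h4'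
    have h5 : γ x * h ≤ ∑ v ∈ Q, γ v * sl q u v := by
      rw [← S.sl_sum hu hQb, Finset.mul_sum]
      apply Finset.sum_le_sum
      intro v hv
      exact mul_le_mul_of_nonneg_right (hmin v hv) (S.sl_nonneg hu (hQb.sub hv))
    have h5' : ∑ v ∈ P, γ v * sl q u' v ≤ γ w * h := by
      rw [← S.sl_sum hu' hPb, Finset.mul_sum]
      apply Finset.sum_le_sum
      intro v hv
      exact mul_le_mul_of_nonneg_right (hmax v hv) (S.sl_nonneg hu' (hPb.sub hv))
    have h6 : (γ w + γ x) * h = 1 := by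
      have h7 : (γ w + γ x) * h ≤ 1 := by linarith
      have h8 : 1 ≤ (γ w + γ x) * h := by linarith
      linarith
    have h5 : (h:ℤ) ∣ 1 := Dvd.intro_left _ h6
    have h6 := Int.isUnit_iff.mp (isUnit_of_dvd_one h5)
    omega

omit hu in
/-- Elements of one block that are congruent modulo 2 are equivalent. -/
lemma Setup.mod_two {P : Finset (Fin n → ℤ)} (hP : IsBlock V P) {w w' : Fin n → ℤ}
    (hw : w ∈ P) (hw' : w' ∈ P) (D : (Fin n → ℤ) →ₗ[ℤ] ℤ)
    (hD : ∀ v ∈ V, (2:ℤ) ∣ D v - ((if v = w then 1 else 0) - (if v = w' then 1 else 0))) :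
    Eqv V w w' := by
  classical
  by_cases hne : w = w'
  · rw [hne]
    exact Eqv.refl _
  obtain ⟨u, hu, h1, h2⟩ := S.exists_single hP hw
  have hw'1 : u w' = 1 := by
    by_contra hno
    have : w' ∈ off u P := mem_off.mpr ⟨hw', hno⟩
    rw [h1, Finset.mem_singleton] at this
    exact hne this.symm
  have hw1 : u w ≠ 1 := by
    have : w ∈ off u P := by rw [h1]; simp
    exact (mem_off.mp this).2
  obtain ⟨m, hm⟩ := hu.exists_dual (hP.sub hw') hw'1
  obtain ⟨y, hy, hy0, hmy, _, hz⟩ := S.pivot hu (hP.sub hw') hw'1 hm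
  have hy1 := (S.sl_pos hu hy).mp hy0
  -- `D + m` is even
  have heven : ∀ x, (2:ℤ) ∣ (D + m) x := by
    intro x
    obtain ⟨b, hb⟩ := hu.expand x
    rw [hb, map_sum]
    apply Finset.dvd_sum
    intro v hv
    rw [Finset.mem_filter] at hv
    rw [LinearMap.map_smul, smul_eq_mul]
    apply Dvd.dvd.mul_left
    have h3 := hD v hv.1
    have h4 : v ≠ w := by rintro rfl; exact hw1 hv.2
    rw [LinearMap.add_apply]
    by_cases h5 : v = w'
    · rw [h5, if_neg (Ne.symm hne), if_pos rfl] at h3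
      rw [h5, hm.1]
      omega
    · rw [if_neg h4, if_neg h5] at h3
      rw [hm.2 v hv.1 hv.2 h5]
      omega
  have hyw : y = w := by
    by_contra hyw
    have h3 := hD y hy
    have h4 : y ≠ w' := by rintro rfl; exact hy1 hw'1
    rw [if_neg hyw, if_neg h4] at h3
    have h5 := heven y
    rw [LinearMap.add_apply, hmy] at h5
    omega
  subst hyw
  apply Eqv.symm
  apply eqv_of_dual hm hw'1 hw1 hmy
  intro z hz' hz1 hzy
  obtain ⟨Q, hQ, hzQ⟩ := S.cover z hz'
  have hle : ∀ x ∈ V, u x ≠ 1 → x ≠ y → 0 ≤ m x := by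
    intro x hx hx1 hxy
    have h3 := hz x hx ((S.sl_pos hu hx).mpr hx1) hxy
    rw [h2] at h3
    obtain ⟨R, hR, hxR⟩ := S.cover x hx
    have h4 : sl q u x ≤ h := by
      rw [← S.off_sum hu hR]
      exact Finset.single_le_sum (f := fun v => sl q u v)
        (fun v hv => S.sl_nonneg hu (hR.sub (mem_off.mp hv).1)) (mem_off.mpr ⟨hxR, hx1⟩)
    have h5 : -m x * (h:ℤ) < h := lt_of_lt_of_le h3 h4
    have h6 : (0:ℤ) < h := by exact_mod_cast S.h0
    by_contra hneg
    push Not at hneg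
    nlinarith
  have hPQ : w' ∉ Q := by
    intro h3
    have h4 : P = Q := hP.eq hQ hw' h3
    have h5 : z ∈ off u P := mem_off.mpr ⟨by rw [h4]; exact hzQ, hz1⟩
    rw [h1, Finset.mem_singleton] at h5
    exact hzy h5
  have h7 := block_sum hm hw'1 hQ
  rw [if_neg hPQ, Finset.sum_neg_distrib, neg_eq_zero] at h7
  have h8 : ∀ x ∈ off u Q, 0 ≤ m x := by
    intro x hx
    have hx' := mem_off.mp hx
    apply hle x (hQ.sub hx'.1) hx'.2
    rintro rfl
    apply hPQ
    have : P = Q := hP.eq hQ hw hx'.1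
    rw [← this]
    exact hw'
  exact (Finset.sum_eq_zero_iff_of_nonneg h8).mp h7 z (mem_off.mpr ⟨hzQ, hz1⟩)

omit S hu in
lemma card_image_le_of_imp {α β γ : Type*} [DecidableEq β] [DecidableEq γ] (s : Finset α)
    (f : α → β) (g : α → γ) (H : ∀ x ∈ s, ∀ y ∈ s, f x = f y → g x = g y) :
    (s.image g).card ≤ (s.image f).card := by
  classical
  have h1 : ∀ c ∈ s.image g, ∃ x ∈ s, g x = c := by
    intro c hc
    obtain ⟨x, hx, h⟩ := Finset.mem_image.mp hc
    exact ⟨x, hx, h⟩
  rcases s.eq_empty_or_nonempty with rfl | ⟨x0, _⟩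
  · simp
  have : Nonempty α := ⟨x0⟩
  choose! φ hφ using h1
  apply Finset.card_le_card_of_injOn (fun c => f (φ c))
  · intro c hc
    exact Finset.mem_image_of_mem _ (hφ c hc).1
  · intro c hc c' hc' h
    have h2 := H _ (hφ c hc).1 _ (hφ c' hc').1 h
    rw [(hφ c hc).2, (hφ c' hc').2] at h2
    exact h2

end Pool.Agent.FBL
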