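import Mathlib

namespace Pool.Agent.FBL

/-- The real point with the same coordinates as the lattice point `v`. -/
def toR {n : ℕ} (v : Fin n → ℤ) : Fin n → ℝ := fun i => (v i : ℝ)

/-- `V` is the vertex set of a smooth Fano polytope `Δ = conv V` in `N = ℤ^n`, that is, the set of
primitive generators of the rays of the fan of a smooth toric Fano variety of dimension `n`. -/
structure IsSmoothFano {n : ℕ} (V : Finset (Fin n → ℤ)) : Prop where
  /-- The origin is an interior point of `Δ`. -/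
  zero_mem : (0 : Fin n → ℝ) ∈ interior (convexHull ℝ (toR '' {v | v ∈ V}))
  /-- Every element of `V` is a vertex of `Δ`. -/
  vertex : ∀ v ∈ V, toR v ∉ convexHull ℝ (toR '' {w | w ∈ V ∧ w ≠ v})
  /-- The vertices on each facet of `Δ` form a basis of the lattice. As the origin is an interior
  point, the facets are the sets `Δ ∩ {u = 1}`, where `u` is a linear functional with `u ≤ 1` on
  `V` such that the elements of `V` at which `u = 1` span the whole space. -/
  facet : ∀ u : (Fin n → ℝ) →ₗ[ℝ] ℝ, (∀ v ∈ V, u (toR v) ≤ 1) →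
    Submodule.span ℝ (toR '' {v | v ∈ V ∧ u (toR v) = 1}) = ⊤ →
    LinearIndepOn ℤ id {v | v ∈ V ∧ u (toR v) = 1} ∧
      Submodule.span ℤ {v | v ∈ V ∧ u (toR v) = 1} = ⊤

/-- `g ∈ Aut(Δ)`: the automorphism `g` of the lattice `N = ℤ^n` maps the polytope `Δ`
(equivalently, its vertex set `V`) to itself. -/
def IsAut {n : ℕ} (V : Finset (Fin n → ℤ)) (g : (Fin n → ℤ) ≃+ (Fin n → ℤ)) : Prop :=
  ∀ v, g v ∈ V ↔ v ∈ V

/-- `Aut(Δ)` acts transitively on the vertex set `V`. -/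
def VertexTransitive {n : ℕ} (V : Finset (Fin n → ℤ)) : Prop :=
  ∀ v ∈ V, ∀ w ∈ V, ∃ g, IsAut V g ∧ g v = w

/-- The `Aut(Δ)`-orbit of `v`. -/
def orbitOf {n : ℕ} (V : Finset (Fin n → ℤ)) (v : Fin n → ℤ) : Set (Fin n → ℤ) :=
  {w | ∃ g, IsAut V g ∧ g v = w}

/-- `t`: the number of `Aut(Δ)`-orbits on the vertex set `V`. -/
noncomputable def numOrbits {n : ℕ} (V : Finset (Fin n → ℤ)) : ℕ :=
  {O | ∃ v ∈ V, O = orbitOf V v}.ncard

theorem invariants_add {n : ℕ} {V : Finset (Fin n → ℤ)} {a b : (Fin n → ℤ) →+ ℚ}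
    (ha : ∀ g, IsAut V g → ∀ x, a (g x) = a x) (hb : ∀ g, IsAut V g → ∀ x, b (g x) = b x) :
    ∀ g, IsAut V g → ∀ x, (a + b) (g x) = (a + b) x := by
  intro g hg x
  simp [ha g hg x, hb g hg x]

theorem invariants_zero {n : ℕ} {V : Finset (Fin n → ℤ)} :
    ∀ g, IsAut V g → ∀ x, (0 : (Fin n → ℤ) →+ ℚ) (g x) = (0 : (Fin n → ℤ) →+ ℚ) x :=
  fun _ _ _ => rfl

theorem invariants_smul {n : ℕ} {V : Finset (Fin n → ℤ)} (c : ℚ) {a : (Fin n → ℤ) →+ ℚ}
    (ha : ∀ g, IsAut V g → ∀ x, a (g x) = a x) :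
    ∀ g, IsAut V g → ∀ x, (c • a) (g x) = (c • a) x := by
  intro g hg x
  simp [ha g hg x]

/-- `M_ℚ^G`: the rational linear functionals on `N = ℤ^n` that are invariant under
`G = Aut(Δ)`. -/
def invariants {n : ℕ} (V : Finset (Fin n → ℤ)) : Submodule ℚ ((Fin n → ℤ) →+ ℚ) where
  carrier := {m | ∀ g, IsAut V g → ∀ x, m (g x) = m x}
  add_mem' := invariants_add
  zero_mem' := invariants_zero
  smul_mem' := invariants_smul

/-- `k = dim M_ℚ^G`. -/
noncomputable def invRank {n : ℕ} (V : Finset (Fin n → ℤ)) : ℕ :=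
  Module.finrank ℚ (invariants V)

end Pool.Agent.FBL
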