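import Pool.Agent.FBL.Defs

namespace Pool.Agent.FBL

theorem aut_mul {n : ℕ} {V : Finset (Fin n → ℤ)} {a b : (Fin n → ℤ) ≃ₗ[ℤ] (Fin n → ℤ)}
    (ha : ∀ v, a v ∈ V ↔ v ∈ V) (hb : ∀ v, b v ∈ V ↔ v ∈ V) :
    ∀ v, (a * b) v ∈ V ↔ v ∈ V := by
  intro v
  have h1 := ha (b v)
  have h2 := hb v
  simp only [LinearEquiv.mul_apply]
  exact h1.trans h2

theorem aut_one {n : ℕ} {V : Finset (Fin n → ℤ)} :
    ∀ v, (1 : (Fin n → ℤ) ≃ₗ[ℤ] (Fin n → ℤ)) v ∈ V ↔ v ∈ V := by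
  intro v
  simp

theorem aut_inv {n : ℕ} {V : Finset (Fin n → ℤ)} {a : (Fin n → ℤ) ≃ₗ[ℤ] (Fin n → ℤ)}
    (ha : ∀ v, a v ∈ V ↔ v ∈ V) : ∀ v, a⁻¹ v ∈ V ↔ v ∈ V := by
  intro v
  have h1 := ha (a⁻¹ v)
  have h2 : a (a⁻¹ v) = v := by
    have : (a * a⁻¹) v = v := by simp
    exact this
  rw [h2] at h1
  exact h1.symm

/-- The automorphism group as a subgroup of the linear automorphisms. -/
def autGroup {n : ℕ} (V : Finset (Fin n → ℤ)) :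
    Subgroup ((Fin n → ℤ) ≃ₗ[ℤ] (Fin n → ℤ)) where
  carrier := {g | ∀ v, g v ∈ V ↔ v ∈ V}
  mul_mem' := aut_mul
  one_mem' := aut_one
  inv_mem' := aut_inv

theorem orbit_equivalence {n : ℕ} (V : Finset (Fin n → ℤ)) :
    Equivalence (fun v w : {v // v ∈ V} => ∃ g ∈ autGroup V, g v.1 = w.1) := by
  refine ⟨fun v => ⟨1, Subgroup.one_mem _, rfl⟩, ?_, ?_⟩
  · rintro v w ⟨g, hg, h⟩
    refine ⟨g⁻¹, Subgroup.inv_mem _ hg, ?_⟩
    rw [← h]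
    have : (g⁻¹ * g) v.1 = v.1 := by simp
    exact this
  · rintro v w x ⟨g, hg, h⟩ ⟨g', hg', h'⟩
    refine ⟨g' * g, Subgroup.mul_mem _ hg' hg, ?_⟩
    rw [LinearEquiv.mul_apply, h, h']

/-- The equivalence relation on `V` whose classes are the orbits. -/
def orbitSetoidL {n : ℕ} (V : Finset (Fin n → ℤ)) : Setoid {v // v ∈ V} where
  r v w := ∃ g ∈ autGroup V, g v.1 = w.1
  iseqv := orbit_equivalence V

/-- The number of orbits on the vertex set `V`. -/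
noncomputable def numOrbitsL {n : ℕ} (V : Finset (Fin n → ℤ)) : ℕ :=
  Nat.card (Quotient (orbitSetoidL V))

theorem invL_add {n : ℕ} {V : Finset (Fin n → ℤ)} {a b : (Fin n → ℤ) →ₗ[ℤ] ℚ}
    (ha : ∀ g ∈ autGroup V, ∀ x, a (g x) = a x) (hb : ∀ g ∈ autGroup V, ∀ x, b (g x) = b x) :
    ∀ g ∈ autGroup V, ∀ x, (a + b) (g x) = (a + b) x := by
  intro g hg x
  simp [ha g hg x, hb g hg x]

theorem invL_smul {n : ℕ} {V : Finset (Fin n → ℤ)} (c : ℚ) {a : (Fin n → ℤ) →ₗ[ℤ] ℚ}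
    (ha : ∀ g ∈ autGroup V, ∀ x, a (g x) = a x) :
    ∀ g ∈ autGroup V, ∀ x, (c • a) (g x) = (c • a) x := by
  intro g hg x
  simp [ha g hg x]

/-- The invariant rational functionals. -/
def invariantsL {n : ℕ} (V : Finset (Fin n → ℤ)) : Submodule ℚ ((Fin n → ℤ) →ₗ[ℤ] ℚ) where
  carrier := {m | ∀ g ∈ autGroup V, ∀ x, m (g x) = m x}
  add_mem' := invL_add
  zero_mem' := fun _ _ _ => rfl
  smul_mem' := invL_smul

/-- The dimension of the space of invariant functionals. -/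
noncomputable def invRankL {n : ℕ} (V : Finset (Fin n → ℤ)) : ℕ :=
  Module.finrank ℚ (invariantsL V)

/-- Vertex-transitivity. -/
def VertexTransitiveL {n : ℕ} (V : Finset (Fin n → ℤ)) : Prop :=
  ∀ v ∈ V, ∀ w ∈ V, ∃ g ∈ autGroup V, g v = w

end Pool.Agent.FBL
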