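import Pool.Agent.FBL.HThreeB

namespace Pool.Agent.FBL

open Finset

variable {n : ℕ} {V : Finset (Fin n → ℤ)}

/-- The slack divisibility. -/
lemma slack_dvd {q : ℕ} (hq : ∀ γ, IsRel V γ → (q : ℤ) ∣ ∑ v ∈ V, γ v)
    {u : (Fin n → ℤ) →ₗ[ℤ] ℤ} (hu : IsFct V u) {v : Fin n → ℤ} (hv : v ∈ V) :
    (q : ℤ) ∣ 1 - u v := by
  classical
  obtain ⟨b, hb⟩ := hu.expand v
  set γ : (Fin n → ℤ) → ℤ := fun x => (if x = v then 1 else 0) - (if u x = 1 then b x else 0)
    with hγ
  have h1 : IsRel V γ := by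
    unfold IsRel
    simp only [hγ, sub_smul]
    rw [Finset.sum_sub_distrib]
    have h2 : ∑ x ∈ V, (if x = v then (1:ℤ) else 0) • x = v := by
      rw [Finset.sum_eq_single v]
      · simp
      · intro x _ hne
        simp [hne]
      · intro h
        exact absurd hv h
    have h3 : ∑ x ∈ V, (if u x = 1 then b x else 0) • x = v := by
      conv_rhs => rw [hb]
      rw [Finset.sum_filter]
      apply Finset.sum_congr rfl
      intro x _
      split_ifs with h
      · rfl
      · rw [zero_smul]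
    rw [h2, h3, sub_self]
  have h4 := hq γ h1
  have h5 : ∑ x ∈ V, γ x = 1 - u v := by
    simp only [hγ]
    rw [Finset.sum_sub_distrib, Finset.sum_ite_eq' V v, if_pos hv]
    congr 1
    conv_rhs => rw [hb]
    rw [map_sum, ← Finset.sum_filter]
    apply Finset.sum_congr rfl
    intro x hx
    rw [LinearMap.map_smul, (Finset.mem_filter.mp hx).2]
    simp
  rwa [h5] at h4

/-- The orbit sums of a relation add up. -/
lemma orbits_le {q : ℕ}
    (hr : ∀ v0 ∈ V, ∃ r : ℚ, 0 < r ∧ ∀ γ : (Fin n → ℤ) → ℤ, IsRel V γ →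
      ((∑ v ∈ orb V v0, γ v : ℤ) : ℚ) = r * ((∑ v ∈ V, γ v : ℤ) : ℚ))
    (hq : 0 < q) (hγ : ∃ γ, IsRel V γ ∧ ∑ v ∈ V, γ v = q) : numOrbitsL V ≤ q := by
  classical
  obtain ⟨γ, hγ, hγq⟩ := hγ
  have : Fintype (Quotient (orbitSetoidL V)) := Fintype.ofFinite _
  have h1 : ∑ o : Quotient (orbitSetoidL V),
      ∑ v : {v // v ∈ V} with Quotient.mk (orbitSetoidL V) v = o, γ v.1 = q := by
    rw [Finset.sum_fiberwise, ← hγq, Finset.univ_eq_attach, Finset.sum_attach V γ]
  have h2 : ∀ o : Quotient (orbitSetoidL V),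
      1 ≤ ∑ v : {v // v ∈ V} with Quotient.mk (orbitSetoidL V) v = o, γ v.1 := by
    intro o
    obtain ⟨⟨v0, hv0⟩, rfl⟩ := Quotient.exists_rep o
    obtain ⟨r, hr0, hr⟩ := hr v0 hv0
    have h3 := hr γ hγ
    rw [hγq] at h3
    have h4 : ∑ v : {v // v ∈ V} with Quotient.mk (orbitSetoidL V) v =
        Quotient.mk (orbitSetoidL V) ⟨v0, hv0⟩, γ v.1 = ∑ v ∈ orb V v0, γ v := by
      apply Finset.sum_bij (fun (v : {v // v ∈ V}) _ => v.1)
      · intro v hv
        rw [Finset.mem_filter] at hv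
        obtain ⟨g, hg, h⟩ := Quotient.exact hv.2.symm
        exact mem_orb.mpr ⟨v.2, g, hg, h⟩
      · intro v _ v' _ h
        exact Subtype.ext h
      · intro v hv
        obtain ⟨h5, g, hg, h6⟩ := mem_orb.mp hv
        refine ⟨⟨v, h5⟩, ?_, rfl⟩
        rw [Finset.mem_filter]
        refine ⟨Finset.mem_univ _, ?_⟩
        exact (Quotient.sound (⟨g, hg, h6⟩ : (orbitSetoidL V).r ⟨v0, hv0⟩ ⟨v, h5⟩)).symm
      · intro v _
        rfl
    rw [h4]
    have h5 : (0:ℚ) < ((∑ v ∈ orb V v0, γ v : ℤ) : ℚ) := by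
      rw [h3]
      have : (0:ℚ) < q := by exact_mod_cast hq
      push_cast
      positivity
    have h6 : 0 < ∑ v ∈ orb V v0, γ v := by exact_mod_cast h5
    omega
  have h7 : (numOrbitsL V : ℤ) ≤ q := by
    rw [← h1]
    unfold numOrbitsL
    rw [Nat.card_eq_fintype_card]
    calc ((Fintype.card (Quotient (orbitSetoidL V)) : ℕ) : ℤ)
        = ∑ _o : Quotient (orbitSetoidL V), (1:ℤ) := by simp
      _ ≤ _ := Finset.sum_le_sum (fun o _ => h2 o)
  exact_mod_cast h7

/-- The main reduction. -/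
lemma setup_of (hV : IsSmoothFano V) (hk : numOrbitsL V = invRankL V + 1) :
    ∃ q : ℕ, 0 < q ∧ numOrbitsL V ≤ q ∧
      (∃ m : (Fin n → ℤ) →ₗ[ℤ] ℤ, ∀ v ∈ V, (q : ℤ) ∣ m v - 1) ∧
      (¬ VertexTransitiveL V → ∃ h, Setup V q h) := by
  classical
  obtain ⟨q, hq0, hqd, hγ⟩ := exists_index hV
  have hr := fun v0 (hv0 : v0 ∈ V) => orbit_ratio hV hk hv0
  refine ⟨q, hq0, orbits_le hr hq0 hγ, ?_, ?_⟩
  · obtain ⟨u, hu, _⟩ := hV.exists_fct 0 (by simp)
    refine ⟨u, ?_⟩
    intro v hv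
    have := slack_dvd hqd hu hv
    rw [← dvd_neg, neg_sub] at this
    exact this
  · intro hnt
    -- every orbit meets every block
    have hmeet : ∀ P, IsBlock V P → ∀ v ∈ V, ∃ w ∈ P, ∃ g ∈ autGroup V, g v = w := by
      intro P hP v hv
      obtain ⟨r, hr0, hr⟩ := hr v hv
      have h1 := hr _ hP.isRel
      rw [Finset.sum_ite_mem, Finset.sum_ite_mem, Finset.inter_eq_right.mpr hP.sub] at h1
      simp only [Finset.sum_const, mul_one, nsmul_eq_mul] at h1
      by_contra hno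
      push Not at hno
      have h2 : orb V v ∩ P = ∅ := by
        rw [Finset.eq_empty_iff_forall_notMem]
        intro x hx
        rw [Finset.mem_inter] at hx
        obtain ⟨_, g, hg, h3⟩ := mem_orb.mp hx.1
        exact hno x hx.2 g hg h3
      rw [h2] at h1
      have h3 : (0:ℚ) < (P.card : ℚ) := by
        exact_mod_cast Finset.card_pos.mpr hP.nonempty
      push_cast at h1
      simp only [Finset.card_empty, Nat.cast_zero] at h1
      have h4 : (0:ℚ) < r * (P.card : ℚ) := mul_pos hr0 h3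
      linarith
    obtain ⟨P0, hP0⟩ := hV.exists_block
    have hcover : ∀ v ∈ V, ∃ P, IsBlock V P ∧ v ∈ P := by
      intro v hv
      obtain ⟨w, hw, g, hg, h1⟩ := hmeet P0 hP0 v hv
      refine ⟨P0.image (g⁻¹ : (Fin n → ℤ) ≃ₗ[ℤ] (Fin n → ℤ)),
        hP0.image (Subgroup.inv_mem _ hg), ?_⟩
      rw [Finset.mem_image]
      refine ⟨w, hw, ?_⟩
      rw [← h1]
      have : (g⁻¹ * g) v = v := by simp
      simpa using this
    have hcard : ∀ P, IsBlock V P → P.card = P0.card := by
      intro P hP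
      obtain ⟨w, hw⟩ := hP.nonempty
      obtain ⟨x, hx, g, hg, h1⟩ := hmeet P0 hP0 w (hP.sub hw)
      have h2 : P.image g = P0 := by
        apply (hP.image hg).eq hP0 (w := x) _ hx
        rw [← h1]
        exact Finset.mem_image_of_mem _ hw
      rw [← h2, Finset.card_image_of_injective _ g.injective]
    have hqκ : (q : ℤ) ∣ P0.card := by
      have h1 := hqd _ hP0.isRel
      rw [Finset.sum_ite_mem, Finset.inter_eq_right.mpr hP0.sub] at h1
      simpa using h1
    have hqκ' : q ∣ P0.card := by exact_mod_cast hqκ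
    obtain ⟨h, hh⟩ := hqκ'
    have hh0 : 0 < h := by
      have := Finset.card_pos.mpr hP0.nonempty
      rw [hh] at this
      exact Nat.pos_of_mul_pos_left this |> fun h' => by
        rcases Nat.eq_zero_or_pos h with h'' | h''
        · rw [h''] at this
          simp at this
        · exact h''
    refine ⟨h, hV, hq0, hh0, hcover, ?_, fun u hu v hv => slack_dvd hqd hu hv, hγ, ?_⟩
    · intro P hP
      rw [hcard P hP, hh]
    · intro P hP
      unfold VertexTransitiveL at hnt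
      push Not at hnt
      obtain ⟨v1, hv1, v2, hv2, hne⟩ := hnt
      have hPc : P.card = q * h := by rw [hcard P hP, hh]
      have h1 := orbit_classes hq0 hr hγ hP hPc hv1
      have h2 := orbit_classes hq0 hr hγ hP hPc hv2
      have hdisj : Disjoint ((P.filter (fun v => v ∈ orb V v1)).image (cl V))
          ((P.filter (fun v => v ∈ orb V v2)).image (cl V)) := by
        rw [Finset.disjoint_left]
        intro C hC hC'
        obtain ⟨x, hx, rfl⟩ := Finset.mem_image.mp hC
        obtain ⟨y, hy, hxy⟩ := Finset.mem_image.mp hC'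
        rw [Finset.mem_filter] at hx hy
        obtain ⟨hxV, g1, hg1, e1⟩ := mem_orb.mp hx.2
        obtain ⟨hyV, g2, hg2, e2⟩ := mem_orb.mp hy.2
        have hEq : Eqv V y x := (cl_eq_iff hyV).mp hxy
        obtain ⟨g3, hg3, e3⟩ := hEq.symm.aut hxV hyV
        apply hne (g2⁻¹ * (g3 * g1)) (Subgroup.mul_mem _ (Subgroup.inv_mem _ hg2)
          (Subgroup.mul_mem _ hg3 hg1))
        rw [LinearEquiv.mul_apply, LinearEquiv.mul_apply, e1, e3, ← e2]
        have : (g2⁻¹ * g2) v2 = v2 := by simp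
        simpa using this
      have h3 : ((P.filter (fun v => v ∈ orb V v1)).image (cl V)) ∪
          ((P.filter (fun v => v ∈ orb V v2)).image (cl V)) ⊆ P.image (cl V) := by
        apply Finset.union_subset
        · exact Finset.image_subset_image (Finset.filter_subset _ _)
        · exact Finset.image_subset_image (Finset.filter_subset _ _)
      have h4 := Finset.card_le_card h3
      rw [Finset.card_union_of_disjoint hdisj] at h4
      omega

lemma Setup.four_le_h {q h : ℕ} (S : Setup V q h) : 4 ≤ h := by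
  have h1 := S.three_le_h
  by_contra hlt
  have h2 : h = 3 := by omega
  subst h2
  exact S.no_three

lemma Setup.dim_bound {q h : ℕ} (S : Setup V q h) : nb V * (q * h) ≤ n + (nb V - 1) * h := by
  classical
  obtain ⟨v0, hv0⟩ := S.fano.nonempty
  obtain ⟨P, hP, hvP⟩ := S.cover v0 hv0
  obtain ⟨u, hu, hoff, _⟩ := S.exists_single hP hvP
  have h1 : ¬ ∀ Q, IsBlock V Q → (off u Q).card = 1 ∨ (off u Q).card = h :=
    fun h => S.no_single_full hu h
  push Not at h1
  obtain ⟨Q, hQ, hQ1, hQh⟩ := h1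
  have hQP : Q ≠ P := by
    rintro rfl
    rw [hoff] at hQ1
    simp at hQ1
  have h2 := S.rho_eq hu
  have h3 := S.off_card_le hu hQ
  have hPm := mem_Bl.mpr hP
  have hQm : Q ∈ (Bl V).erase P := Finset.mem_erase.mpr ⟨hQP, mem_Bl.mpr hQ⟩
  rw [← Finset.add_sum_erase _ _ hPm, ← Finset.add_sum_erase _ _ hQm, hoff,
    Finset.card_singleton] at h2
  have h4 : ∑ R ∈ ((Bl V).erase P).erase Q, (off u R).card ≤ (nb V - 2) * h := by
    have h5 : ∀ R ∈ ((Bl V).erase P).erase Q, (off u R).card ≤ h := by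
      intro R hR
      exact S.off_card_le hu (mem_Bl.mp (Finset.mem_of_mem_erase (Finset.mem_of_mem_erase hR)))
    have h6 := Finset.sum_le_card_nsmul _ _ _ h5
    rw [Finset.card_erase_of_mem hQm, Finset.card_erase_of_mem hPm, smul_eq_mul] at h6
    have h7 : (Bl V).card - 1 - 1 = nb V - 2 := by
      unfold nb
      omega
    rw [h7] at h6
    exact h6
  have h8 := S.card_eq
  have h9 := S.three_le_nb
  have h10 : (nb V - 1) * h = (nb V - 2) * h + h := by
    obtain ⟨k, hk⟩ : ∃ k, nb V = k + 2 := ⟨nb V - 2, by omega⟩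
    rw [hk]
    simp only [Nat.add_sub_cancel]
    have : k + 2 - 1 = k + 1 := by omega
    rw [this]
    ring
  rw [← h8, ← h2, h10]
  omega

/-- The main theorem. -/
theorem main (hV : IsSmoothFano V) (hk : numOrbitsL V = invRankL V + 1) :
    VertexTransitiveL V ∨
      (16 ≤ n ∧ n + 6 ≤ V.card ∧ 2 ≤ numOrbitsL V ∧
        ∃ (q : ℕ) (m : (Fin n → ℤ) →ₗ[ℤ] ℤ), numOrbitsL V ≤ q ∧ ∀ v ∈ V, (q : ℤ) ∣ m v - 1) := by
  classical
  by_cases hvt : VertexTransitiveL V
  · exact Or.inl hvt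
  right
  obtain ⟨q, hq0, hq, ⟨m, hm⟩, hS⟩ := setup_of hV hk
  obtain ⟨h, S⟩ := hS hvt
  have ht : 2 ≤ numOrbitsL V := by
    by_contra hlt
    apply hvt
    intro v hv w hw
    have h1 : numOrbitsL V ≤ 1 := by omega
    unfold numOrbitsL at h1
    have h2 := (Finite.card_le_one_iff_subsingleton).mp h1
    have h3 := Subsingleton.elim (Quotient.mk (orbitSetoidL V) ⟨v, hv⟩)
      (Quotient.mk (orbitSetoidL V) ⟨w, hw⟩)
    obtain ⟨g, hg, h4⟩ := Quotient.exact h3
    exact ⟨g, hg, h4⟩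
  have h4 := S.four_le_h
  have h5 := S.three_le_nb
  have h6 := S.rho_ge
  have h7 := S.dim_bound
  refine ⟨?_, by omega, ht, q, m, hq, hm⟩
  have hq2 : 2 ≤ q := by omega
  obtain ⟨k, hk'⟩ : ∃ k, nb V = k + 1 := ⟨nb V - 1, by omega⟩
  rw [hk'] at h7 h5
  simp only [Nat.add_sub_cancel] at h7
  have h8 : (k + 1) * (2 * h) ≤ (k + 1) * (q * h) :=
    Nat.mul_le_mul_left _ (Nat.mul_le_mul_right _ hq2)
  nlinarith

end Pool.Agent.FBL
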