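import Pool.Agent.FBL.ModTwo

namespace Pool.Agent.FBL

open Finset

variable {n : ℕ} {V : Finset (Fin n → ℤ)} {q : ℕ}

/-- The dual functional of another vertex after a pivot. -/
lemma IsDual.pivot {u u' : (Fin n → ℤ) →ₗ[ℤ] ℤ} {w0 w y : Fin n → ℤ}
    {m0 m : (Fin n → ℤ) →ₗ[ℤ] ℤ}
    (hm0 : IsDual V u w0 m0) (hm : IsDual V u w m) (hw1 : u w = 1) (hw : w ∈ V)
    (hww : w ≠ w0) (hm0y : m0 y = -1)
    (hF' : ∀ v ∈ V, u' v = 1 → v = y ∨ (u v = 1 ∧ v ≠ w0)) :
    IsDual V u' w (m + m y • m0) := by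
  refine ⟨?_, ?_⟩
  · rw [LinearMap.add_apply, LinearMap.smul_apply, hm.1, hm0.2 w hw hw1 hww]
    simp
  · intro v hv hv1 hne
    rw [LinearMap.add_apply, LinearMap.smul_apply]
    rcases hF' v hv hv1 with h | ⟨h1, h2⟩
    · rw [h, hm0y]
      simp
    · rw [hm.2 v hv h1 hne, hm0.2 v hv h1 h2]
      simp

/-- Off a facet with `h = 3`, an element with slack at least 2 in a block with another
off-facet element: structure of the block. -/
lemma Setup.pair_struct (S : Setup V q 3) {u : (Fin n → ℤ) →ₗ[ℤ] ℤ} (hu : IsFct V u)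
    {Q : Finset (Fin n → ℤ)} (hQ : IsBlock V Q) {z : Fin n → ℤ} (hz : z ∈ off u Q)
    (h2 : 2 ≤ sl q u z) (hne : off u Q ≠ {z}) :
    ∃ z', z' ≠ z ∧ off u Q = {z, z'} ∧ sl q u z = 2 ∧ sl q u z' = 1 := by
  classical
  have h1 := S.off_sum hu hQ
  rw [← Finset.add_sum_erase _ _ hz] at h1
  have hpos : ∀ v ∈ (off u Q).erase z, 1 ≤ sl q u v := by
    intro v hv
    exact S.off_one_le hu hQ (Finset.mem_of_mem_erase hv)
  have hsum : ((off u Q).erase z).card ≤ ∑ v ∈ (off u Q).erase z, sl q u v := by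
    have := Finset.sum_le_sum hpos
    rw [Finset.sum_const] at this
    simpa using this
  have hcard : ((off u Q).erase z).card ≤ 1 := by
    have : (((off u Q).erase z).card : ℤ) ≤ 1 := by
      push_cast at h1 hsum ⊢
      linarith
    exact_mod_cast this
  have hcard' : ((off u Q).erase z).card ≠ 0 := by
    intro h0
    rw [Finset.card_eq_zero] at h0
    apply hne
    rw [← Finset.insert_erase hz, h0]
    simp
  obtain ⟨z', hz'⟩ := Finset.card_eq_one.mp (show ((off u Q).erase z).card = 1 by omega)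
  have hz'mem : z' ∈ (off u Q).erase z := by rw [hz']; simp
  have h3 := Finset.ne_of_mem_erase hz'mem
  have h4 := hpos z' hz'mem
  rw [hz', Finset.sum_singleton] at h1
  refine ⟨z', h3, ?_, ?_, ?_⟩
  · rw [← Finset.insert_erase hz, hz']
  · push_cast at h1
    omega
  · push_cast at h1
    omega

/-- An element of `V` with positive dual value at a given off-facet element of slack less
than `h`. -/
lemma Setup.exists_neg {h : ℕ} (S : Setup V q h) {u : (Fin n → ℤ) →ₗ[ℤ] ℤ} (hu : IsFct V u)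
    {y : Fin n → ℤ} (hy : y ∈ V) (hlt : sl q u y < h) :
    ∃ w ∈ V, u w = 1 ∧ ∃ m, IsDual V u w m ∧ 1 ≤ m y := by
  classical
  by_contra hno
  push Not at hno
  obtain ⟨b, hb⟩ := hu.expand (-y)
  have hb0 : ∀ w ∈ V.filter (fun v => u v = 1), 0 ≤ b w := by
    intro w hw
    have hw' := Finset.mem_filter.mp hw
    obtain ⟨m, hm⟩ := hu.exists_dual hw'.1 hw'.2
    have h1 := hno w hw'.1 hw'.2 m hm
    have h2 : m (-y) = b w := by
      rw [hb, map_sum, Finset.sum_eq_single w]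
      · rw [LinearMap.map_smul, hm.1, smul_eq_mul, mul_one]
      · intro v hv hne
        rw [Finset.mem_filter] at hv
        rw [LinearMap.map_smul, hm.2 v hv.1 hv.2 hne, smul_zero]
      · intro h
        exact absurd hw h
    rw [map_neg] at h2
    omega
  obtain ⟨P, hP, hyP⟩ := S.cover y hy
  obtain ⟨u1, hu1, _, hsl1⟩ := S.exists_single hP hyP
  have h1 : -u1 y ≤ -u y := by
    rw [← map_neg, ← map_neg, hb, map_sum, map_sum]
    apply Finset.sum_le_sum
    intro w hw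
    have hw' := Finset.mem_filter.mp hw
    rw [LinearMap.map_smul, LinearMap.map_smul, smul_eq_mul, smul_eq_mul, hw'.2]
    exact mul_le_mul_of_nonneg_left (hu1.le_one w hw'.1) (hb0 w hw)
  have h2 := S.sl_mul hu1 hy
  have h3 := S.sl_mul hu hy
  rw [hsl1] at h2
  have h4 : (q:ℤ) * h ≤ q * sl q u y := by linarith
  have h5 := S.qpos
  have h6 := le_of_mul_le_mul_left h4 h5
  omega

/-- For `h = 3` no block is full at a facet. -/
lemma Setup.no_full_three (S : Setup V q 3) {u : (Fin n → ℤ) →ₗ[ℤ] ℤ} (hu : IsFct V u)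
    {P : Finset (Fin n → ℤ)} (hP : IsBlock V P) (hf : (off u P).card = 3) : False := by
  classical
  -- an element that is not equivalent to an off-facet element
  obtain ⟨w0, hw0, hw0ne⟩ : ∃ w0 ∈ P, ∀ y ∈ off u P, ¬ Eqv V w0 y := by
    by_contra hno
    push Not at hno
    have hsub : P.image (cl V) ⊆ (off u P).image (cl V) := by
      intro C hC
      obtain ⟨w, hw, rfl⟩ := Finset.mem_image.mp hC
      obtain ⟨y, hy, h1⟩ := hno w hw
      exact Finset.mem_image.mpr ⟨y, hy, ((cl_eq_iff (hP.sub hw)).mpr h1).symm⟩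
    have h1 := Finset.card_le_card hsub
    have h2 := Finset.card_image_le (s := off u P) (f := cl V)
    have h3 := S.classes P hP
    omega
  have hw01 : u w0 = 1 := by
    by_contra hno
    exact hw0ne w0 (mem_off.mpr ⟨hw0, hno⟩) (Eqv.refl _)
  obtain ⟨m0, hm0⟩ := hu.exists_dual (hP.sub hw0) hw01
  obtain ⟨ya, hya, hm0ya, hm0P, ⟨u', hu', hsl'⟩, hm0z⟩ :=
    S.full_pivot hu hP hf hw0 hw01 hm0
  have hya' := mem_off.mp hya
  -- a block where `m0` does not vanish
  obtain ⟨z0, hz0, hz01, hz0ya, hmz0⟩ : ∃ z0 ∈ V, u z0 ≠ 1 ∧ z0 ≠ ya ∧ m0 z0 ≠ 0 := by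
    by_contra hno
    push Not at hno
    exact hw0ne ya hya (eqv_of_dual hm0 hw01 hya'.2 hm0ya hno)
  obtain ⟨Q, hQ, hz0Q⟩ := S.cover z0 hz0
  have hz0off : z0 ∈ off u Q := mem_off.mpr ⟨hz0Q, hz01⟩
  have hPQ : P ≠ Q := by
    rintro rfl
    exact hmz0 (hm0P z0 hz0off hz0ya)
  have hyaQ : ya ∉ Q := fun h => hPQ (hP.eq hQ hya'.1 h)
  have hw0Q : w0 ∉ Q := fun h => hPQ (hP.eq hQ hw0 h)
  have hsumQ := block_sum hm0 hw01 hQ
  rw [if_neg hw0Q] at hsumQ
  obtain ⟨zp, hzp, hmzp⟩ : ∃ zp ∈ off u Q, 1 ≤ -m0 zp := by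
    by_contra hno
    push Not at hno
    have h1 : ∀ x ∈ off u Q, 0 ≤ m0 x := by
      intro x hx
      have := hno x hx
      omega
    rw [Finset.sum_neg_distrib, neg_eq_zero, Finset.sum_eq_zero_iff_of_nonneg h1] at hsumQ
    exact hmz0 (hsumQ z0 hz0off)
  have hzp' := mem_off.mp hzp
  have hzpya : zp ≠ ya := by rintro rfl; exact hyaQ hzp'.1
  have hzlt := hm0z zp (hQ.sub hzp'.1) hzp'.2 hzpya
  have hoffne : off u Q ≠ {zp} := by
    intro h
    rw [h, Finset.sum_singleton] at hsumQ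
    omega
  obtain ⟨z', hz'ne, hoffQ, hslzp, hslz'⟩ := S.pair_struct hu hQ hzp (by omega) hoffne
  have hz'off : z' ∈ off u Q := by rw [hoffQ]; simp
  have hz'' := mem_off.mp hz'off
  have hm0zp : m0 zp = -1 := by omega
  rw [hoffQ, Finset.sum_pair hz'ne.symm] at hsumQ
  have hm0z' : m0 z' = 1 := by omega
  -- a negative element
  have hslya := S.full_sl hu hP hf hya
  obtain ⟨w, hw, hw1, m, hm, hmya⟩ := S.exists_neg hu (hP.sub hya'.1)
    (show sl q u ya < ((3:ℕ):ℤ) by rw [hslya]; norm_num)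
  have hwP : w ∉ P := by
    intro hwP
    obtain ⟨y, hy, hmy, hyz, _, _⟩ := S.full_pivot hu hP hf hwP hw1 hm
    by_cases h1 : ya = y
    · rw [h1] at hmya
      omega
    · rw [hyz ya hya h1] at hmya
      omega
  have hww0 : w ≠ w0 := by rintro rfl; exact hwP hw0
  have hsumP := block_sum hm hw1 hP
  rw [if_neg hwP] at hsumP
  obtain ⟨yb, hyb, hmyb⟩ : ∃ yb ∈ off u P, 1 ≤ -m yb := by
    by_contra hno
    push Not at hno
    have h1 : ∑ y ∈ off u P, (-m y) < 0 := by
      rw [← Finset.add_sum_erase _ _ hya]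
      have : ∑ x ∈ (off u P).erase ya, (-m x) ≤ 0 := by
        apply Finset.sum_nonpos
        intro x hx
        have := hno x (Finset.mem_of_mem_erase hx)
        omega
      omega
    omega
  have hyb' := mem_off.mp hyb
  have hybya : yb ≠ ya := by rintro rfl; omega
  have hslyb := S.full_sl hu hP hf hyb
  have hm0yb := hm0P yb hyb hybya
  -- the pivot element of `w` at `u` is `yb`
  obtain ⟨y1, hy1, hy10, hmy1, _, hz1⟩ := S.pivot hu hw hw1 hm
  have hy1b : y1 = yb := by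
    by_contra hne
    have h1 := hz1 yb (hP.sub hyb'.1) (by omega) (Ne.symm hne)
    rw [hslyb] at h1
    nlinarith
  rw [hy1b, hslyb] at hz1
  have hz'V := hQ.sub hz''.1
  have hzpV := hQ.sub hzp'.1
  have hybQ : ∀ x ∈ Q, x ≠ yb := by
    rintro x hx rfl
    exact hPQ (hP.eq hQ hyb'.1 hx)
  have h5 := hz1 z' hz'V (by omega) (hybQ z' hz''.1)
  -- the new facet
  have hF' : ∀ v ∈ V, u' v = 1 → v = ya ∨ (u v = 1 ∧ v ≠ w0) := by
    intro v hv hv1
    have h6 := hsl' v hv
    rw [(S.sl_eq_zero hu' hv).mpr hv1] at h6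
    by_cases hvw : v = w0
    · rw [hvw, hm0.1] at h6
      have := S.sl_nonneg hu (hP.sub hw0)
      omega
    · by_cases huv : u v = 1
      · exact Or.inr ⟨huv, hvw⟩
      · left
        by_contra hne
        have := hm0z v hv huv hne
        omega
  have hw1' : u' w = 1 := by
    rw [← S.sl_eq_zero hu' hw, hsl' w hw, hm0.2 w hw hw1 hww0,
      (S.sl_eq_zero hu hw).mpr hw1]
    norm_num
  have hm' : IsDual V u' w (m + m ya • m0) := hm0.pivot hm hw1 hw hww0 hm0ya hF'
  obtain ⟨y2, hy2, hy20, hmy2, _, hz2⟩ := S.pivot hu' hw hw1' hm'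
  have hval : ∀ x, (m + m ya • m0) x = m x + m ya * m0 x := by
    intro x
    simp
  have hslyb' : sl q u' yb = 1 := by
    rw [hsl' yb (hP.sub hyb'.1), hslyb, hm0yb]
    norm_num
  have hy2b : y2 = yb := by
    by_contra hne
    have h1 := hz2 yb (hP.sub hyb'.1) (by omega) (Ne.symm hne)
    rw [hval, hm0yb, hslyb'] at h1
    nlinarith
  rw [hy2b, hslyb'] at hz2
  have hslzp' : sl q u' zp = 1 := by
    rw [hsl' zp hzpV, hslzp, hm0zp]
    norm_num
  have h7 := hz2 zp hzpV (by omega) (hybQ zp hzp'.1)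
  rw [hval, hm0zp, hslzp'] at h7
  -- the sum over the block `Q`
  have h8 := block_sum hm hw1 hQ
  rw [hoffQ, Finset.sum_pair hz'ne.symm] at h8
  have h9 : (0:ℤ) ≤ if w ∈ Q then 1 else 0 := by split_ifs <;> norm_num
  rw [hslz'] at h5
  omega

end Pool.Agent.FBL
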