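import Pool.Agent.FBL.HThree

namespace Pool.Agent.FBL

open Finset

variable {n : ℕ} {V : Finset (Fin n → ℤ)} {q : ℕ}

/-- A block with two off-facet elements, of slacks `2` and `1`. -/
structure Pr (V : Finset (Fin n → ℤ)) (q : ℕ) (u : (Fin n → ℤ) →ₗ[ℤ] ℤ)
    (P : Finset (Fin n → ℤ)) (p a : Fin n → ℤ) : Prop where
  blk : IsBlock V P
  ne : p ≠ a
  off : off u P = {p, a}
  slp : sl q u p = 2
  sla : sl q u a = 1

lemma Pr.pmem {u : (Fin n → ℤ) →ₗ[ℤ] ℤ} {P : Finset (Fin n → ℤ)} {p a : Fin n → ℤ}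
    (h : Pr V q u P p a) : p ∈ Pool.Agent.FBL.off u P := by
  classical
  rw [h.off]; simp

lemma Pr.amem {u : (Fin n → ℤ) →ₗ[ℤ] ℤ} {P : Finset (Fin n → ℤ)} {p a : Fin n → ℤ}
    (h : Pr V q u P p a) : a ∈ Pool.Agent.FBL.off u P := by
  classical
  rw [h.off]; simp

lemma Setup.three_two (S : Setup V q 3) {u : (Fin n → ℤ) →ₗ[ℤ] ℤ} (hu : IsFct V u)
    {P : Finset (Fin n → ℤ)} (hP : IsBlock V P) :
    (∃ z, off u P = {z}) ∨ ∃ p a, Pr V q u P p a := by
  classical
  have h1 := S.off_card_le hu hP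
  have h2 := S.off_card_pos hu hP
  have h3 : (off u P).card ≠ 3 := fun h => S.no_full_three hu hP h
  have h4 : (off u P).card = 1 ∨ (off u P).card = 2 := by omega
  rcases h4 with h4 | h4
  · left
    exact Finset.card_eq_one.mp h4
  · right
    obtain ⟨x, y, hxy, hoff⟩ := Finset.card_eq_two.mp h4
    have h5 := S.off_sum hu hP
    rw [hoff, Finset.sum_pair hxy] at h5
    have h6 := S.off_one_le hu hP (show x ∈ off u P by rw [hoff]; simp)
    have h7 := S.off_one_le hu hP (show y ∈ off u P by rw [hoff]; simp)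
    push_cast at h5
    have h8 : (sl q u x = 2 ∧ sl q u y = 1) ∨ (sl q u x = 1 ∧ sl q u y = 2) := by omega
    rcases h8 with ⟨h8, h9⟩ | ⟨h8, h9⟩
    · exact ⟨x, y, hP, hxy, hoff, h8, h9⟩
    · exact ⟨y, x, hP, hxy.symm, by rw [hoff, Finset.pair_comm], h9, h8⟩

/-- The elements of a block of pair type. -/
lemma Setup.pair_class (S : Setup V q 3) {u : (Fin n → ℤ) →ₗ[ℤ] ℤ} (hu : IsFct V u)
    {P : Finset (Fin n → ℤ)} {p a : Fin n → ℤ} (hpr : Pr V q u P p a) {w : Fin n → ℤ}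
    (hw : w ∈ P) (hw1 : u w = 1) {m : (Fin n → ℤ) →ₗ[ℤ] ℤ} (hm : IsDual V u w m) :
    Eqv V w p ∨ (m a = -1 ∧ m p = 0 ∧
      (∃ u', IsFct V u' ∧ ∀ v ∈ V, sl q u' v = sl q u v + m v) ∧
      ∀ z ∈ V, u z ≠ 1 → z ≠ a → -m z < sl q u z) := by
  classical
  have hP := hpr.blk
  obtain ⟨y, hy, hy0, hmy, ⟨u', hu', hsl'⟩, hz⟩ := S.pivot hu (hP.sub hw) hw1 hm
  have hp := mem_off.mp hpr.pmem
  have ha := mem_off.mp hpr.amem
  have hy1 := (S.sl_pos hu hy).mp hy0
  have hsumP := block_sum hm hw1 hP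
  rw [if_pos hw, hpr.off, Finset.sum_pair hpr.ne] at hsumP
  have hyP : y = p ∨ y = a := by
    by_contra hno
    push Not at hno
    have h1 : ∀ x ∈ V, u x ≠ 1 → x ≠ y → u' x ≠ 1 := by
      intro x hx hx1 hxy
      rw [← S.sl_pos hu' hx, hsl' x hx]
      have := hz x hx ((S.sl_pos hu hx).mpr hx1) hxy
      nlinarith
    have h2 : p ∈ off u' P := mem_off.mpr ⟨hp.1, h1 p (hP.sub hp.1) hp.2 (Ne.symm hno.1)⟩
    have h3 : a ∈ off u' P := mem_off.mpr ⟨ha.1, h1 a (hP.sub ha.1) ha.2 (Ne.symm hno.2)⟩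
    have h4 : w ∈ off u' P := by
      refine mem_off.mpr ⟨hw, ?_⟩
      rw [← S.sl_pos hu' (hP.sub hw), hsl' w (hP.sub hw), hm.1,
        (S.sl_eq_zero hu (hP.sub hw)).mpr hw1]
      linarith
    have h5 : ({p, a, w} : Finset (Fin n → ℤ)) ⊆ off u' P := by
      intro x hx
      simp only [Finset.mem_insert, Finset.mem_singleton] at hx
      rcases hx with rfl | rfl | rfl
      · exact h2
      · exact h3
      · exact h4
    have h6 : ({p, a, w} : Finset (Fin n → ℤ)).card = 3 := by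
      rw [Finset.card_eq_three]
      refine ⟨p, a, w, hpr.ne, ?_, ?_, rfl⟩
      · rintro rfl; exact hp.2 hw1
      · rintro rfl; exact ha.2 hw1
    have h7 := Finset.card_le_card h5
    have h8 := S.off_card_le hu' hP
    exact S.no_full_three hu' hP (by omega)
  rcases hyP with rfl | rfl
  · left
    rw [hpr.slp] at hz
    apply eqv_of_dual hm hw1 hp.2 hmy
    intro z hz' hz1 hzy
    obtain ⟨Q, hQ, hzQ⟩ := S.cover z hz'
    have hzo : z ∈ off u Q := mem_off.mpr ⟨hzQ, hz1⟩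
    by_cases hQP : Q = P
    · rw [hQP, hpr.off] at hzo
      simp only [Finset.mem_insert, Finset.mem_singleton] at hzo
      rcases hzo with h | h
      · exact absurd h hzy
      · have h1 := hz z hz' ((S.sl_pos hu hz').mpr hz1) hzy
        rw [h] at h1 ⊢
        rw [hpr.sla] at h1
        rw [hmy] at hsumP
        omega
    · have hwQ : w ∉ Q := fun h => hQP (hQ.eq hP h hw)
      have hyQ : ∀ x ∈ Q, x ≠ y := by
        rintro x hx rfl
        exact hQP (hQ.eq hP hx hp.1)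
      have hsum := block_sum hm hw1 hQ
      rw [if_neg hwQ] at hsum
      rcases S.three_two hu hQ with ⟨z1, h1⟩ | ⟨pQ, aQ, hprQ⟩
      · rw [h1, Finset.sum_singleton] at hsum
        rw [h1, Finset.mem_singleton] at hzo
        rw [hzo]
        omega
      · have h2 := mem_off.mp hprQ.pmem
        have h3 := mem_off.mp hprQ.amem
        have h4 := hz pQ (hQ.sub h2.1) (by rw [hprQ.slp]; norm_num) (hyQ pQ h2.1)
        have h5 := hz aQ (hQ.sub h3.1) (by rw [hprQ.sla]; norm_num) (hyQ aQ h3.1)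
        rw [hprQ.off, Finset.sum_pair hprQ.ne] at hsum
        rw [hprQ.slp] at h4
        rw [hprQ.sla] at h5
        rw [hprQ.off] at hzo
        simp only [Finset.mem_insert, Finset.mem_singleton] at hzo
        rcases hzo with h | h
        · rw [h]
          omega
        · rw [h]
          omega
  · right
    rw [hpr.sla] at hz hsl'
    refine ⟨hmy, by omega, ⟨u', hu', ?_⟩, ?_⟩
    · intro v hv
      rw [hsl' v hv, one_mul]
    · intro z hz' hz1 hzy
      have := hz z hz' ((S.sl_pos hu hz').mpr hz1) hzy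
      rw [mul_one] at this
      exact this

/-- Values of a dual functional of type M on a pair block not containing the element. -/
lemma Pr.vals {u : (Fin n → ℤ) →ₗ[ℤ] ℤ} {Q : Finset (Fin n → ℤ)}
    {pQ aQ w a : Fin n → ℤ} (hprQ : Pr V q u Q pQ aQ) {m : (Fin n → ℤ) →ₗ[ℤ] ℤ}
    (hm : IsDual V u w m) (hw1 : u w = 1) (hwQ : w ∉ Q) (haQ : a ∉ Q)
    (hz : ∀ z ∈ V, u z ≠ 1 → z ≠ a → -m z < sl q u z) :
    (m pQ = 0 ∧ m aQ = 0) ∨ (m pQ = -1 ∧ m aQ = 1) := by
  classical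
  have hQ := hprQ.blk
  have h2 := mem_off.mp hprQ.pmem
  have h3 := mem_off.mp hprQ.amem
  have hsum := block_sum hm hw1 hQ
  rw [if_neg hwQ, hprQ.off, Finset.sum_pair hprQ.ne] at hsum
  have h4 := hz pQ (hQ.sub h2.1) h2.2 (by rintro rfl; exact haQ h2.1)
  have h5 := hz aQ (hQ.sub h3.1) h3.2 (by rintro rfl; exact haQ h3.1)
  rw [hprQ.slp] at h4
  rw [hprQ.sla] at h5
  omega

/-- The link between two pair blocks. -/
lemma Setup.three_link (S : Setup V q 3) {u : (Fin n → ℤ) →ₗ[ℤ] ℤ} (hu : IsFct V u)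
    {P Q : Finset (Fin n → ℤ)} {p a pQ aQ : Fin n → ℤ} (hpr : Pr V q u P p a)
    (hprQ : Pr V q u Q pQ aQ) (hPQ : P ≠ Q) {w0 w1 : Fin n → ℤ}
    (hw0 : w0 ∈ P) (hw01 : u w0 = 1) (hw0p : ¬ Eqv V w0 p)
    {m0 : (Fin n → ℤ) →ₗ[ℤ] ℤ} (hm0 : IsDual V u w0 m0) (hm0Q : m0 pQ = -1)
    (hw1 : w1 ∈ Q) (hw11 : u w1 = 1) (hw1p : ¬ Eqv V w1 pQ) (hw1a : ¬ Eqv V w1 aQ)
    {m1 : (Fin n → ℤ) →ₗ[ℤ] ℤ} (hm1 : IsDual V u w1 m1) :
    m1 p = -1 ∧ m1 a = 1 ∧ m1 pQ = 0 ∧ m1 aQ = -1 ∧
      ∀ z ∈ V, u z ≠ 1 → z ∉ P → z ∉ Q → m0 z = 0 := by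
  classical
  have hP := hpr.blk
  have hQ := hprQ.blk
  have hp := mem_off.mp hpr.pmem
  have ha := mem_off.mp hpr.amem
  have hpQ := mem_off.mp hprQ.pmem
  have haQ := mem_off.mp hprQ.amem
  have hdisj : ∀ x ∈ P, x ∉ Q := fun x hx hx' => hPQ (hP.eq hQ hx hx')
  obtain ⟨hm0a, hm0p, ⟨u', hu', hsl'⟩, hz0⟩ :=
    (S.pair_class hu hpr hw0 hw01 hm0).resolve_left hw0p
  obtain ⟨hm1a, hm1p, _, hz1⟩ := (S.pair_class hu hprQ hw1 hw11 hm1).resolve_left hw1p
  have hw1P : w1 ∉ P := fun h => hdisj w1 h hw1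
  have hvals0 := hprQ.vals hm0 hw01 (hdisj w0 hw0) (hdisj a ha.1) hz0
  have hm0aQ : m0 aQ = 1 := by omega
  have hvals1 := hpr.vals hm1 hw11 hw1P (fun h => hdisj aQ h haQ.1) hz1
  -- the new facet
  have hww : w1 ≠ w0 := by rintro rfl; exact hw1P hw0
  have hF' : ∀ v ∈ V, u' v = 1 → v = a ∨ (u v = 1 ∧ v ≠ w0) := by
    intro v hv hv1
    have h6 := hsl' v hv
    rw [(S.sl_eq_zero hu' hv).mpr hv1] at h6
    by_cases hvw : v = w0
    · rw [hvw, hm0.1] at h6
      have := S.sl_nonneg hu (hP.sub hw0)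
      omega
    · by_cases huv : u v = 1
      · exact Or.inr ⟨huv, hvw⟩
      · left
        by_contra hne
        have := hz0 v hv huv hne
        omega
  have hw1V := hQ.sub hw1
  have hw11' : u' w1 = 1 := by
    rw [← S.sl_eq_zero hu' hw1V, hsl' w1 hw1V, hm0.2 w1 hw1V hw11 hww,
      (S.sl_eq_zero hu hw1V).mpr hw11]
    norm_num
  have hm' : IsDual V u' w1 (m1 + m1 a • m0) := hm0.pivot hm1 hw11 hw1V hww hm0a hF'
  have hval : ∀ x, (m1 + m1 a • m0) x = m1 x + m1 a * m0 x := by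
    intro x
    simp
  have hslpQ' : sl q u' pQ = 1 := by
    rw [hsl' pQ (hQ.sub hpQ.1), hprQ.slp, hm0Q]
    norm_num
  have hslaQ' : sl q u' aQ = 2 := by
    rw [hsl' aQ (hQ.sub haQ.1), hprQ.sla, hm0aQ]
    norm_num
  have hsup : ({aQ, pQ} : Finset (Fin n → ℤ)) ⊆ off u' Q := by
    intro x hx
    simp only [Finset.mem_insert, Finset.mem_singleton] at hx
    rcases hx with rfl | rfl
    · exact mem_off.mpr ⟨haQ.1, (S.sl_pos hu' (hQ.sub haQ.1)).mp (by rw [hslaQ']; norm_num)⟩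
    · exact mem_off.mpr ⟨hpQ.1, (S.sl_pos hu' (hQ.sub hpQ.1)).mp (by rw [hslpQ']; norm_num)⟩
  have hoffQ' : off u' Q = {aQ, pQ} := by
    symm
    apply Finset.eq_of_subset_of_card_le hsup
    rw [Finset.card_pair hprQ.ne.symm]
    have h1 := S.off_card_le hu' hQ
    have h2 : (off u' Q).card ≠ 3 := fun h => S.no_full_three hu' hQ h
    omega
  have hprQ' : Pr V q u' Q aQ pQ := ⟨hQ, hprQ.ne.symm, hoffQ', hslaQ', hslpQ'⟩
  obtain ⟨h1, h2, _, h3⟩ := (S.pair_class hu' hprQ' hw1 hw11' hm').resolve_left hw1a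
  rw [hval, hm0Q, hm1p] at h1
  have hm1a' : m1 a = 1 := by omega
  refine ⟨by omega, hm1a', hm1p, hm1a, ?_⟩
  intro z hz' hz1' hzP hzQ
  obtain ⟨R, hR, hzR⟩ := S.cover z hz'
  have hzo : z ∈ off u R := mem_off.mpr ⟨hzR, hz1'⟩
  have hRP : R ≠ P := by rintro rfl; exact hzP hzR
  have hRQ : R ≠ Q := by rintro rfl; exact hzQ hzR
  have hw0R : w0 ∉ R := fun h => hRP (hR.eq hP h hw0)
  have haR : a ∉ R := fun h => hRP (hR.eq hP h ha.1)
  have hw1R : w1 ∉ R := fun h => hRQ (hR.eq hQ h hw1)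
  have haQR : aQ ∉ R := fun h => hRQ (hR.eq hQ h haQ.1)
  have hpQR : pQ ∉ R := fun h => hRQ (hR.eq hQ h hpQ.1)
  rcases S.three_two hu hR with ⟨z1, h4⟩ | ⟨pR, aR, hprR⟩
  · have hsum := block_sum hm0 hw01 hR
    rw [if_neg hw0R, h4, Finset.sum_singleton] at hsum
    rw [h4, Finset.mem_singleton] at hzo
    rw [hzo]
    omega
  · have hvals := hprR.vals hm0 hw01 hw0R haR hz0
    have hvals' := hprR.vals hm1 hw11 hw1R haQR hz1
    rcases hvals with hv | hv
    · rw [hprR.off] at hzo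
      simp only [Finset.mem_insert, Finset.mem_singleton] at hzo
      rcases hzo with h | h
      · rw [h]; exact hv.1
      · rw [h]; exact hv.2
    · exfalso
      have hpR := mem_off.mp hprR.pmem
      have hsl1 : sl q u' pR = 1 := by
        rw [hsl' pR (hR.sub hpR.1), hprR.slp, hv.1]
        norm_num
      have h5 := h3 pR (hR.sub hpR.1) ((S.sl_pos hu' (hR.sub hpR.1)).mp (by omega))
        (by rintro rfl; exact hpQR hpR.1)
      rw [hval, hm1a', hv.1, hsl1] at h5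
      omega

/-- A block with at least four classes has an element not equivalent to two given ones. -/
lemma exists_other {P : Finset (Fin n → ℤ)} (hP : P ⊆ V) (a b : Fin n → ℤ)
    (hc : 3 ≤ (P.image (cl V)).card) : ∃ w ∈ P, ¬ Eqv V w a ∧ ¬ Eqv V w b := by
  classical
  by_contra hno
  push Not at hno
  have hsub : P.image (cl V) ⊆ {cl V a, cl V b} := by
    intro C hC
    obtain ⟨w, hw, rfl⟩ := Finset.mem_image.mp hC
    simp only [Finset.mem_insert, Finset.mem_singleton]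
    by_cases h : Eqv V w a
    · left
      exact (cl_eq_iff (hP hw)).mpr h
    · right
      exact (cl_eq_iff (hP hw)).mpr (hno w hw h)
  have h1 := Finset.card_le_card hsub
  have h2 := Finset.card_le_two (a := cl V a) (b := cl V b)
  omega

/-- The case `h = 3` is impossible. -/
lemma Setup.no_three (S : Setup V q 3) : False := by
  classical
  obtain ⟨v0, hv0⟩ := S.fano.nonempty
  obtain ⟨P0, hP0, hvP⟩ := S.cover v0 hv0
  obtain ⟨u, hu, _, _⟩ := S.exists_single hP0 hvP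
  -- a pair block
  obtain ⟨P, p, a, hpr⟩ : ∃ P p a, Pr V q u P p a := by
    by_contra hno
    push Not at hno
    apply S.no_single_full hu
    intro P hP
    left
    rcases S.three_two hu hP with ⟨z, h1⟩ | ⟨p, a, h1⟩
    · rw [h1]
      simp
    · exact absurd h1 (hno P p a)
  have hP := hpr.blk
  have hp := mem_off.mp hpr.pmem
  have ha := mem_off.mp hpr.amem
  have honfacet : ∀ {R : Finset (Fin n → ℤ)} {pR aR : Fin n → ℤ}, Pr V q u R pR aR →
      ∀ w ∈ R, ¬ Eqv V w pR → ¬ Eqv V w aR → u w = 1 := by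
    intro R pR aR hR w hw h1 h2
    by_contra hno
    have : w ∈ off u R := mem_off.mpr ⟨hw, hno⟩
    rw [hR.off] at this
    simp only [Finset.mem_insert, Finset.mem_singleton] at this
    rcases this with rfl | rfl
    · exact h1 (Eqv.refl _)
    · exact h2 (Eqv.refl _)
  obtain ⟨w0, hw0, hw0p, hw0a⟩ := exists_other hP.sub p a
    (le_trans (by norm_num) (S.classes P hP))
  have hw01 := honfacet hpr w0 hw0 hw0p hw0a
  obtain ⟨m0, hm0⟩ := hu.exists_dual (hP.sub hw0) hw01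
  obtain ⟨hm0a, hm0p, hu0', hz0⟩ := (S.pair_class hu hpr hw0 hw01 hm0).resolve_left hw0p
  obtain ⟨z0, hz0', hz01, hz0a, hmz0⟩ : ∃ z0 ∈ V, u z0 ≠ 1 ∧ z0 ≠ a ∧ m0 z0 ≠ 0 := by
    by_contra hno
    push Not at hno
    exact hw0a (eqv_of_dual hm0 hw01 ha.2 hm0a hno)
  obtain ⟨Q, hQ, hz0Q⟩ := S.cover z0 hz0'
  have hz0off : z0 ∈ off u Q := mem_off.mpr ⟨hz0Q, hz01⟩
  have hPQ : P ≠ Q := by
    rintro rfl
    rw [hpr.off] at hz0off
    simp only [Finset.mem_insert, Finset.mem_singleton] at hz0off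
    rcases hz0off with h | h
    · rw [h] at hmz0
      exact hmz0 hm0p
    · exact hz0a h
  have hw0Q : w0 ∉ Q := fun h => hPQ (hP.eq hQ hw0 h)
  have haQ' : a ∉ Q := fun h => hPQ (hP.eq hQ ha.1 h)
  obtain ⟨pQ, aQ, hprQ⟩ : ∃ pQ aQ, Pr V q u Q pQ aQ := by
    rcases S.three_two hu hQ with ⟨z1, h1⟩ | h1
    · exfalso
      have hsum := block_sum hm0 hw01 hQ
      rw [if_neg hw0Q, h1, Finset.sum_singleton] at hsum
      rw [h1, Finset.mem_singleton] at hz0off
      rw [hz0off] at hmz0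
      omega
    · exact h1
  have hm0Q : m0 pQ = -1 := by
    rcases hprQ.vals hm0 hw01 hw0Q haQ' hz0 with h1 | h1
    · exfalso
      rw [hprQ.off] at hz0off
      simp only [Finset.mem_insert, Finset.mem_singleton] at hz0off
      rcases hz0off with h | h
      · rw [h] at hmz0; exact hmz0 h1.1
      · rw [h] at hmz0; exact hmz0 h1.2
    · exact h1.1
  have hpQ := mem_off.mp hprQ.pmem
  have haQ := mem_off.mp hprQ.amem
  -- all other elements of `Q` are equivalent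
  have key : ∀ w1 ∈ Q, ¬ Eqv V w1 pQ → ¬ Eqv V w1 aQ → ∀ m1, IsDual V u w1 m1 →
      m1 p = -1 ∧ m1 a = 1 ∧ m1 pQ = 0 ∧ m1 aQ = -1 ∧
      ∀ z ∈ V, u z ≠ 1 → z ∉ P → z ∉ Q → m1 z = 0 := by
    intro w1 hw1 h1 h2 m1 hm1
    have hw11 := honfacet hprQ w1 hw1 h1 h2
    obtain ⟨a1, a2, a3, a4, _⟩ := S.three_link hu hpr hprQ hPQ hw0 hw01 hw0p hm0 hm0Q
      hw1 hw11 h1 h2 hm1
    obtain ⟨_, _, _, _, b5⟩ := S.three_link hu hprQ hpr hPQ.symm hw1 hw11 h1 hm1 a1
      hw0 hw01 hw0p hw0a hm0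
    exact ⟨a1, a2, a3, a4, fun z hz hz1 hzP hzQ => b5 z hz hz1 hzQ hzP⟩
  obtain ⟨w1, hw1, hw1p, hw1a⟩ := exists_other hQ.sub pQ aQ
    (le_trans (by norm_num) (S.classes Q hQ))
  have hw11 := honfacet hprQ w1 hw1 hw1p hw1a
  obtain ⟨m1, hm1⟩ := hu.exists_dual (hQ.sub hw1) hw11
  obtain ⟨a1, a2, a3, a4, a5⟩ := key w1 hw1 hw1p hw1a m1 hm1
  have hsub : Q.image (cl V) ⊆ {cl V pQ, cl V aQ, cl V w1} := by
    intro C hC
    obtain ⟨w2, hw2, rfl⟩ := Finset.mem_image.mp hC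
    simp only [Finset.mem_insert, Finset.mem_singleton]
    by_cases h1 : Eqv V w2 pQ
    · left
      exact (cl_eq_iff (hQ.sub hw2)).mpr h1
    · by_cases h2 : Eqv V w2 aQ
      · right; left
        exact (cl_eq_iff (hQ.sub hw2)).mpr h2
      · right; right
        rw [cl_eq_iff (hQ.sub hw2)]
        have hw21 := honfacet hprQ w2 hw2 h1 h2
        obtain ⟨m2, hm2⟩ := hu.exists_dual (hQ.sub hw2) hw21
        obtain ⟨b1, b2, b3, b4, b5⟩ := key w2 hw2 h1 h2 m2 hm2
        refine ⟨m2 - m1, ?_⟩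
        intro v hv
        rw [LinearMap.sub_apply]
        by_cases hv1 : u v = 1
        · have e1 : m2 v = if v = w2 then 1 else 0 := by
            split_ifs with h
            · rw [h, hm2.1]
            · exact hm2.2 v hv hv1 h
          have e2 : m1 v = if v = w1 then 1 else 0 := by
            split_ifs with h
            · rw [h, hm1.1]
            · exact hm1.2 v hv hv1 h
          rw [e1, e2]
        · have hne1 : v ≠ w1 := by rintro rfl; exact hv1 hw11
          have hne2 : v ≠ w2 := by rintro rfl; exact hv1 hw21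
          rw [if_neg hne1, if_neg hne2]
          have hmm : m2 v = m1 v := by
            by_cases hvP : v ∈ P
            · have hvo : v ∈ off u P := mem_off.mpr ⟨hvP, hv1⟩
              rw [hpr.off] at hvo
              simp only [Finset.mem_insert, Finset.mem_singleton] at hvo
              rcases hvo with h | h
              · rw [h, a1, b1]
              · rw [h, a2, b2]
            · by_cases hvQ : v ∈ Q
              · have hvo : v ∈ off u Q := mem_off.mpr ⟨hvQ, hv1⟩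
                rw [hprQ.off] at hvo
                simp only [Finset.mem_insert, Finset.mem_singleton] at hvo
                rcases hvo with h | h
                · rw [h, a3, b3]
                · rw [h, a4, b4]
              · rw [a5 v hv hv1 hvP hvQ, b5 v hv hv1 hvP hvQ]
          rw [hmm]
          ring
  have h1 := Finset.card_le_card hsub
  have h2 := Finset.card_le_three (a := cl V pQ) (b := cl V aQ) (c := cl V w1)
  have h3 := S.classes Q hQ
  omega

end Pool.Agent.FBL
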