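import Pool.Agent.FBL.Count

namespace Pool.Agent.FBL

open Finset

variable {n : ℕ} {V : Finset (Fin n → ℤ)} {q h : ℕ}

variable (S : Setup V q h)

include S

/-- The number of classes in a block is at most `2 ^ (ρ - s)`. -/
lemma Setup.classes_le_pow {P : Finset (Fin n → ℤ)} (hP : IsBlock V P) :
    (P.image (cl V)).card ≤ 2 ^ (V.card - n - nb V) := by
  classical
  obtain ⟨w0, hw0⟩ := hP.nonempty
  obtain ⟨u, hu, hoff, hsl⟩ := S.exists_single hP hw0
  have hw0off : w0 ∈ off u P := by rw [hoff]; simp
  have hw01 : u w0 ≠ 1 := (mem_off.mp hw0off).2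
  have honP : ∀ w ∈ P, w ≠ w0 → u w = 1 := by
    intro w hw hne
    by_contra hno
    have : w ∈ off u P := mem_off.mpr ⟨hw, hno⟩
    rw [hoff, Finset.mem_singleton] at this
    exact hne this
  -- the auxiliary functionals
  have hD : ∀ w ∈ P, ∃ D : (Fin n → ℤ) →ₗ[ℤ] ℤ,
      (∀ v ∈ V, u v = 1 → D v = if v = w then 1 else 0) ∧
      D w0 = (if w0 = w then 1 else 0) - 1 ∧
      (∀ Q, IsBlock V Q → Q ≠ P → ∑ v ∈ off u Q, D v = 0) := by
    intro w hw
    by_cases hne : w = w0
    · refine ⟨0, ?_, ?_, ?_⟩
      · intro v hv hv1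
        have : v ≠ w := by
          rintro rfl
          rw [hne] at hv1
          exact hw01 hv1
        simp [this]
      · simp [hne]
      · intro Q _ _
        simp
    · have hw1 := honP w hw hne
      obtain ⟨m, hm⟩ := hu.exists_dual (hP.sub hw) hw1
      refine ⟨m, ?_, ?_, ?_⟩
      · intro v hv hv1
        split_ifs with h1
        · rw [h1, hm.1]
        · exact hm.2 v hv hv1 h1
      · have h1 := block_sum hm hw1 hP
        rw [if_pos hw, hoff, Finset.sum_singleton] at h1
        rw [if_neg (Ne.symm hne)]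
        linarith
      · intro Q hQ hQP
        have h1 := block_sum hm hw1 hQ
        have h2 : w ∉ Q := fun h => hQP (hQ.eq hP h hw)
        rw [if_neg h2, Finset.sum_neg_distrib, neg_eq_zero] at h1
        exact h1
  choose! D hD1 hD2 hD3 using hD
  -- base points
  have hb : ∀ Q ∈ Bl V, ∃ b, b ∈ off u Q := by
    intro Q hQ
    have := S.off_card_pos hu (mem_Bl.mp hQ)
    exact Finset.card_pos.mp this
  choose! b hb using hb
  have hbP : b P = w0 := by
    have := hb P (mem_Bl.mpr hP)
    rw [hoff, Finset.mem_singleton] at this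
    exact this
  set E : Finset (Fin n → ℤ) := (V.filter (fun v => u v ≠ 1)) \ ((Bl V).image b) with hE
  have hbinj : Set.InjOn b ((Bl V : Finset (Finset (Fin n → ℤ))) : Set _) := by
    intro Q hQ Q' hQ' h1
    have h2 := (mem_off.mp (hb Q hQ)).1
    have h3 := (mem_off.mp (hb Q' hQ')).1
    rw [h1] at h2
    exact (mem_Bl.mp hQ).eq (mem_Bl.mp hQ') h2 h3
  have hEcard : E.card = V.card - n - nb V := by
    have h1 : (Bl V).image b ⊆ V.filter (fun v => u v ≠ 1) := by
      intro x hx
      obtain ⟨Q, hQ, rfl⟩ := Finset.mem_image.mp hx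
      have := mem_off.mp (hb Q hQ)
      rw [Finset.mem_filter]
      exact ⟨(mem_Bl.mp hQ).sub this.1, this.2⟩
    rw [hE, Finset.card_sdiff_of_subset h1, Finset.card_image_of_injOn hbinj]
    have h3 := Finset.card_filter_add_card_filter_not (s := V) (fun v => u v = 1)
    rw [hu.card] at h3
    unfold nb
    have h4 : (V.filter (fun v => u v ≠ 1)).card = V.card - n := by
      have : (V.filter (fun v => u v ≠ 1)).card = (V.filter (fun v => ¬ u v = 1)).card := rfl
      omega
    rw [h4]
  -- the parity map
  have key : (P.image (cl V)).card ≤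
      (P.image (fun w => E.filter (fun y => ¬ (2:ℤ) ∣ D w y))).card := by
    apply card_image_le_of_imp
    intro w hw w' hw' hf
    rw [cl_eq_iff (hP.sub hw)]
    apply S.mod_two hP hw hw' (D w - D w')
    have hEeven : ∀ v ∈ E, (2:ℤ) ∣ (D w - D w') v := by
      intro v hv
      have h1 := congrArg (fun s => v ∈ s) hf
      simp only [Finset.mem_filter, hv, true_and, eq_iff_iff, not_iff_not] at h1
      rw [LinearMap.sub_apply]
      omega
    intro v hv
    rw [LinearMap.sub_apply]
    by_cases hv1 : u v = 1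
    · rw [hD1 w hw v hv hv1, hD1 w' hw' v hv hv1]
      simp
    · obtain ⟨Q, hQ, hvQ⟩ := S.cover v hv
      by_cases hQP : Q = P
      · have hvw0 : v = w0 := by
          have : v ∈ off u P := mem_off.mpr ⟨by rw [← hQP]; exact hvQ, hv1⟩
          rw [hoff, Finset.mem_singleton] at this
          exact this
        rw [hvw0, hD2 w hw, hD2 w' hw']
        simp
      · have hvP : v ∉ P := fun h => hQP (hQ.eq hP hvQ h)
        have hvw : v ≠ w := by rintro rfl; exact hvP hw
        have hvw' : v ≠ w' := by rintro rfl; exact hvP hw'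
        rw [if_neg hvw, if_neg hvw']
        rw [show D w v - D w' v - (0 - 0) = (D w - D w') v by simp]
        by_cases hvE : v ∈ E
        · exact hEeven v hvE
        · have hvb : v = b Q := by
            rw [hE, Finset.mem_sdiff, Finset.mem_filter, not_and_not_right] at hvE
            obtain ⟨Q', hQ', h3⟩ := Finset.mem_image.mp (hvE ⟨hv, hv1⟩)
            have h4 := (mem_off.mp (hb Q' hQ')).1
            rw [h3] at h4
            have h5 := (mem_Bl.mp hQ').eq hQ h4 hvQ
            rw [← h3, h5]
          have h6 : ∑ x ∈ off u Q, (D w - D w') x = 0 := by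
            simp only [LinearMap.sub_apply]
            rw [Finset.sum_sub_distrib, hD3 w hw Q hQ hQP, hD3 w' hw' Q hQ hQP, sub_zero]
          have h7 : v ∈ off u Q := mem_off.mpr ⟨hvQ, hv1⟩
          rw [← Finset.add_sum_erase _ _ h7] at h6
          have h8 : (2:ℤ) ∣ ∑ x ∈ (off u Q).erase v, (D w - D w') x := by
            apply Finset.dvd_sum
            intro x hx
            rw [Finset.mem_erase] at hx
            apply hEeven
            rw [hE, Finset.mem_sdiff, Finset.mem_filter]
            refine ⟨⟨hQ.sub (mem_off.mp hx.2).1, (mem_off.mp hx.2).2⟩, ?_⟩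
            intro h9
            obtain ⟨Q', hQ', h10⟩ := Finset.mem_image.mp h9
            have h4 := (mem_off.mp (hb Q' hQ')).1
            rw [h10] at h4
            have h5 := (mem_Bl.mp hQ').eq hQ h4 (mem_off.mp hx.2).1
            rw [h5, ← hvb] at h10
            exact hx.1 h10.symm
          have h9 : (D w - D w') v = -∑ x ∈ (off u Q).erase v, (D w - D w') x := by linarith
          rw [h9]
          exact (dvd_neg).mpr h8
  refine key.trans ?_
  have h2 : P.image (fun w => E.filter (fun y => ¬ (2:ℤ) ∣ D w y)) ⊆ E.powerset := by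
    intro s hs
    obtain ⟨w, _, rfl⟩ := Finset.mem_image.mp hs
    rw [Finset.mem_powerset]
    exact Finset.filter_subset _ _
  refine (Finset.card_le_card h2).trans ?_
  rw [Finset.card_powerset, hEcard]

/-- `ρ ≥ s + 3`. -/
lemma Setup.rho_ge : n + nb V + 3 ≤ V.card := by
  obtain ⟨v0, hv0⟩ := S.fano.nonempty
  obtain ⟨P0, hP0, _⟩ := S.cover v0 hv0
  have h1 := S.classes_le_pow hP0
  have h2 := S.classes P0 hP0
  have h3 := S.three_le_h
  by_contra hlt
  have h4 : V.card - n - nb V ≤ 2 := by omega
  have h5 : 2 ^ (V.card - n - nb V) ≤ 2 ^ 2 := Nat.pow_le_pow_right (by norm_num) h4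
  omega

end Pool.Agent.FBL
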