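import Pool.Agent.FBL.Blocks

namespace Pool.Agent.FBL

open Finset

variable {n : ℕ} {V : Finset (Fin n → ℤ)}

/-- The orbit of `v0` as a finite set. -/
noncomputable def orb (V : Finset (Fin n → ℤ)) (v0 : Fin n → ℤ) : Finset (Fin n → ℤ) := by
  classical
  exact V.filter (fun v => ∃ g ∈ autGroup V, g v0 = v)

lemma mem_orb {v0 v : Fin n → ℤ} : v ∈ orb V v0 ↔ v ∈ V ∧ ∃ g ∈ autGroup V, g v0 = v := by
  classical
  simp [orb]

/-- `γ` is a linear relation between the elements of `V`. -/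
def IsRel (V : Finset (Fin n → ℤ)) (γ : (Fin n → ℤ) → ℤ) : Prop := ∑ v ∈ V, γ v • v = 0

lemma IsRel.map {γ : (Fin n → ℤ) → ℤ} (h : IsRel V γ) (m : (Fin n → ℤ) →ₗ[ℤ] ℤ) :
    ∑ v ∈ V, γ v * m v = 0 := by
  have := congrArg m h
  rw [map_sum, map_zero] at this
  rw [← this]
  apply Finset.sum_congr rfl
  intro v _
  rw [LinearMap.map_smul, smul_eq_mul]

lemma IsBlock.isRel {P : Finset (Fin n → ℤ)} (hP : IsBlock V P) :
    IsRel V (fun v => by classical exact if v ∈ P then 1 else 0) := by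
  classical
  unfold IsRel
  have h1 : ∑ v ∈ V, (if v ∈ P then (1:ℤ) else 0) • v = ∑ v ∈ P, v := by
    rw [← Finset.sum_subset hP.sub]
    · apply Finset.sum_congr rfl
      intro v hv
      simp [hv]
    · intro v _ hv
      simp [hv]
  rw [hP.sum] at h1
  convert h1

instance : Finite (Quotient (orbitSetoidL V)) := Quotient.finite _

/-- The linear map behind the orbit ratios. -/
noncomputable def orbMap (V : Finset (Fin n → ℤ)) :
    (invariantsL V × ℚ) →ₗ[ℚ] (Quotient (orbitSetoidL V) → ℚ) where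
  toFun p := fun o => (p.1 : (Fin n → ℤ) →ₗ[ℤ] ℚ) (Quotient.out o).1 + p.2
  map_add' := by
    intro p p'
    ext o
    simp
    ring
  map_smul' := by
    intro c p
    ext o
    simp
    ring

lemma orbMap_apply (p : invariantsL V × ℚ) (v : {v // v ∈ V}) :
    orbMap V p (Quotient.mk (orbitSetoidL V) v) = (p.1 : (Fin n → ℤ) →ₗ[ℤ] ℚ) v.1 + p.2 := by
  have h1 : (orbitSetoidL V).r (Quotient.out (Quotient.mk (orbitSetoidL V) v)) v :=
    Quotient.exact (Quotient.out_eq _)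
  obtain ⟨g, hg, h⟩ := h1
  have h2 := p.1.2 g hg (Quotient.out (Quotient.mk (orbitSetoidL V) v)).1
  rw [h] at h2
  show (p.1 : (Fin n → ℤ) →ₗ[ℤ] ℚ) (Quotient.out (Quotient.mk (orbitSetoidL V) v)).1 + p.2 = _
  rw [h2]

lemma IsSmoothFano.posQ (hV : IsSmoothFano V) (m : (Fin n → ℤ) →ₗ[ℤ] ℚ)
    (h : ∀ v ∈ V, m v ≤ 0) : m = 0 := by
  have h1 := hV.posZ (((Rat.castHom ℝ).toAddMonoidHom).toIntLinearMap ∘ₗ m) (by
    intro v hv
    have := h v hv
    have h2 : (((Rat.castHom ℝ).toAddMonoidHom).toIntLinearMap ∘ₗ m) v = ((m v : ℚ) : ℝ) := rfl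
    rw [h2]
    exact_mod_cast this)
  apply LinearMap.ext
  intro x
  have := LinearMap.congr_fun h1 x
  have h2 : (((Rat.castHom ℝ).toAddMonoidHom).toIntLinearMap ∘ₗ m) x = ((m x : ℚ) : ℝ) := rfl
  rw [h2] at this
  simpa using this

lemma orbMap_injective (hV : IsSmoothFano V) : Function.Injective (orbMap V) := by
  rw [injective_iff_map_eq_zero]
  rintro ⟨m, c⟩ h
  have h1 : ∀ v ∈ V, (m : (Fin n → ℤ) →ₗ[ℤ] ℚ) v + c = 0 := by
    intro v hv
    have := orbMap_apply (m, c) ⟨v, hv⟩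
    rw [h] at this
    simpa using this.symm
  obtain ⟨v0, hv0⟩ := hV.nonempty
  have hm : (m : (Fin n → ℤ) →ₗ[ℤ] ℚ) = 0 := by
    rcases le_or_gt 0 c with hc | hc
    · apply hV.posQ
      intro v hv
      have := h1 v hv
      linarith
    · have : -(m : (Fin n → ℤ) →ₗ[ℤ] ℚ) = 0 := by
        apply hV.posQ
        intro v hv
        have := h1 v hv
        simp only [LinearMap.neg_apply]
        linarith
      exact neg_eq_zero.mp this
  have hc : c = 0 := by
    have := h1 v0 hv0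
    rw [hm] at this
    simpa using this
  rw [Prod.mk_eq_zero]
  exact ⟨Subtype.ext hm, hc⟩

lemma orbMap_surjective (hV : IsSmoothFano V) (hk : numOrbitsL V = invRankL V + 1) :
    Function.Surjective (orbMap V) := by
  classical
  have : Fintype (Quotient (orbitSetoidL V)) := Fintype.ofFinite _
  have : Module.Finite ℚ (invariantsL V × ℚ) :=
    Module.Finite.of_injective (orbMap V) (orbMap_injective hV)
  have : Module.Finite ℚ (invariantsL V) :=
    Module.Finite.of_surjective (LinearMap.fst ℚ (invariantsL V) ℚ) LinearMap.fst_surjective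
  rw [← LinearMap.injective_iff_surjective_of_finrank_eq_finrank]
  · exact orbMap_injective hV
  · rw [Module.finrank_prod, Module.finrank_self, Module.finrank_pi]
    unfold numOrbitsL invRankL at hk
    rw [← hk, Nat.card_eq_fintype_card]

/-- The orbit ratios. -/
lemma orbit_ratio (hV : IsSmoothFano V) (hk : numOrbitsL V = invRankL V + 1)
    {v0 : Fin n → ℤ} (hv0 : v0 ∈ V) :
    ∃ r : ℚ, 0 < r ∧ ∀ γ : (Fin n → ℤ) → ℤ, IsRel V γ →
      ((∑ v ∈ orb V v0, γ v : ℤ) : ℚ) = r * ((∑ v ∈ V, γ v : ℤ) : ℚ) := by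
  classical
  obtain ⟨⟨m, c⟩, hmc⟩ := orbMap_surjective hV hk
    (fun o => if o = Quotient.mk (orbitSetoidL V) ⟨v0, hv0⟩ then 1 else 0)
  have h1 : ∀ v ∈ V, (m : (Fin n → ℤ) →ₗ[ℤ] ℚ) v + c = if v ∈ orb V v0 then 1 else 0 := by
    intro v hv
    have := orbMap_apply (m, c) ⟨v, hv⟩
    rw [hmc] at this
    rw [← this]
    have h2 : (Quotient.mk (orbitSetoidL V) ⟨v, hv⟩ = Quotient.mk (orbitSetoidL V) ⟨v0, hv0⟩) ↔
        v ∈ orb V v0 := by
      rw [mem_orb]
      constructor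
      · intro h
        obtain ⟨g, hg, h⟩ := Quotient.exact h.symm
        exact ⟨hv, g, hg, h⟩
      · rintro ⟨_, g, hg, h⟩
        exact (Quotient.sound (⟨g, hg, h⟩ : (orbitSetoidL V).r ⟨v0, hv0⟩ ⟨v, hv⟩)).symm
    simp only [h2]
  refine ⟨c, ?_, ?_⟩
  · by_contra hc
    push Not at hc
    have h2 : -(m : (Fin n → ℤ) →ₗ[ℤ] ℚ) = 0 := by
      apply hV.posQ
      intro v hv
      have := h1 v hv
      simp only [LinearMap.neg_apply]
      split_ifs at this <;> linarith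
    have h3 := h1 v0 hv0
    have h4 : v0 ∈ orb V v0 := mem_orb.mpr ⟨hv0, 1, Subgroup.one_mem _, rfl⟩
    rw [if_pos h4, neg_eq_zero.mp h2] at h3
    simp at h3
    linarith
  · intro γ hγ
    have h2 : ∑ v ∈ V, (γ v : ℚ) * (m : (Fin n → ℤ) →ₗ[ℤ] ℚ) v = 0 := by
      have := congrArg (m : (Fin n → ℤ) →ₗ[ℤ] ℚ) hγ
      rw [map_sum, map_zero] at this
      rw [← this]
      apply Finset.sum_congr rfl
      intro v _
      rw [LinearMap.map_smul, zsmul_eq_mul]
    have h3 : ∑ v ∈ V, (γ v : ℚ) * (m : (Fin n → ℤ) →ₗ[ℤ] ℚ) v =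
        ∑ v ∈ V, ((if v ∈ orb V v0 then (γ v : ℚ) else 0) - c * γ v) := by
      apply Finset.sum_congr rfl
      intro v hv
      have h4 := h1 v hv
      split_ifs at h4 ⊢
      · have : (m : (Fin n → ℤ) →ₗ[ℤ] ℚ) v = 1 - c := by linarith
        rw [this]
        ring
      · have : (m : (Fin n → ℤ) →ₗ[ℤ] ℚ) v = - c := by linarith
        rw [this]
        ring
    rw [h3, Finset.sum_sub_distrib, ← Finset.mul_sum, ← Finset.sum_filter] at h2
    have h5 : V.filter (fun v => v ∈ orb V v0) = orb V v0 := by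
      ext v
      simp only [Finset.mem_filter, mem_orb]
      tauto
    rw [h5] at h2
    push_cast
    linarith

/-- The index. -/
lemma exists_index (hV : IsSmoothFano V) :
    ∃ q : ℕ, 0 < q ∧ (∀ γ, IsRel V γ → (q : ℤ) ∣ ∑ v ∈ V, γ v) ∧
      ∃ γ, IsRel V γ ∧ ∑ v ∈ V, γ v = q := by
  classical
  let S : AddSubgroup ℤ :=
    { carrier := {s | ∃ γ, IsRel V γ ∧ ∑ v ∈ V, γ v = s}
      zero_mem' := ⟨fun _ => 0, by simp [IsRel], by simp⟩
      add_mem' := by
        rintro a b ⟨γ, h1, h2⟩ ⟨γ', h3, h4⟩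
        refine ⟨fun v => γ v + γ' v, ?_, ?_⟩
        · unfold IsRel at *
          simp only [add_smul, Finset.sum_add_distrib]
          rw [h1, h3, add_zero]
        · rw [Finset.sum_add_distrib, h2, h4]
      neg_mem' := by
        rintro a ⟨γ, h1, h2⟩
        refine ⟨fun v => -γ v, ?_, ?_⟩
        · unfold IsRel at *
          simp only [neg_smul, Finset.sum_neg_distrib]
          rw [h1, neg_zero]
        · rw [Finset.sum_neg_distrib, h2] }
  obtain ⟨a, ha⟩ := Int.subgroup_cyclic S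
  have hmem : ∀ s, s ∈ S ↔ a ∣ s := by
    intro s
    rw [ha, AddSubgroup.mem_closure_singleton]
    constructor
    · rintro ⟨z, rfl⟩
      exact ⟨z, by rw [smul_eq_mul, mul_comm]⟩
    · rintro ⟨z, rfl⟩
      exact ⟨z, by rw [smul_eq_mul, mul_comm]⟩
  obtain ⟨P, hP⟩ := hV.exists_block
  have h1 : ((P.card : ℕ) : ℤ) ∈ S := by
    refine ⟨_, hP.isRel, ?_⟩
    rw [Finset.sum_ite_mem, Finset.inter_eq_right.mpr hP.sub]
    simp
  have ha0 : a ≠ 0 := by
    rintro rfl
    rw [hmem, zero_dvd_iff] at h1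
    have := Finset.card_pos.mpr hP.nonempty
    omega
  refine ⟨a.natAbs, Int.natAbs_pos.mpr ha0, ?_, ?_⟩
  · intro γ hγ
    rw [Int.natAbs_dvd, ← hmem]
    exact ⟨γ, hγ, rfl⟩
  · have : ((a.natAbs : ℕ) : ℤ) ∈ S := by
      rw [hmem]
      exact Int.dvd_natAbs.mpr dvd_rfl
    exact this

end Pool.Agent.FBL
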