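import Pool.Agent.FBL.Core

namespace Pool.Agent.FBL

open Finset

variable {n : ℕ} {V : Finset (Fin n → ℤ)}

/-- `m` is the dual functional of the vertex `w` of the facet `u`. -/
def IsDual (V : Finset (Fin n → ℤ)) (u : (Fin n → ℤ) →ₗ[ℤ] ℤ) (w : Fin n → ℤ)
    (m : (Fin n → ℤ) →ₗ[ℤ] ℤ) : Prop :=
  m w = 1 ∧ ∀ v ∈ V, u v = 1 → v ≠ w → m v = 0

lemma IsFct.exists_dual {u : (Fin n → ℤ) →ₗ[ℤ] ℤ} (hu : IsFct V u) {w : Fin n → ℤ}
    (hw : w ∈ V) (hw1 : u w = 1) : ∃ m, IsDual V u w m := by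
  classical
  obtain ⟨m, hm⟩ := hu.exists_ext (fun v => if v = w then 1 else 0)
  refine ⟨m, ?_, ?_⟩
  · rw [hm w hw hw1]
    simp
  · intro v hv hv1 hne
    rw [hm v hv hv1]
    simp [hne]

/-- The pivot rule. -/
lemma IsSmoothFano.pivot (hV : IsSmoothFano V) {u : (Fin n → ℤ) →ₗ[ℤ] ℤ} (hu : IsFct V u)
    {w : Fin n → ℤ} (hw : w ∈ V) (hw1 : u w = 1) {m : (Fin n → ℤ) →ₗ[ℤ] ℤ}
    (hm : IsDual V u w m) :
    ∃ y ∈ V, u y < 1 ∧ m y = -1 ∧ IsFct V (u - (1 - u y) • m) ∧
      ∀ z ∈ V, u z < 1 → z ≠ y → -m z * (1 - u y) < 1 - u z := by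
  classical
  have hm0 : (Int.castAddHom ℝ).toIntLinearMap ∘ₗ m ≠ 0 := by
    intro h
    have := LinearMap.congr_fun h w
    simp [hm.1] at this
  have hS : (V.filter (fun v => m v < 0)).Nonempty := by
    by_contra hS
    rw [Finset.not_nonempty_iff_eq_empty, Finset.filter_eq_empty_iff] at hS
    have h1 := hV.posZ (-((Int.castAddHom ℝ).toIntLinearMap ∘ₗ m)) (by
      intro v hv
      have := not_lt.mp (hS hv)
      simp only [LinearMap.neg_apply, LinearMap.comp_apply, AddMonoidHom.coe_toIntLinearMap,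
        Int.coe_castAddHom, Left.neg_nonpos_iff, Int.cast_nonneg_iff]
      exact this)
    rw [neg_eq_zero] at h1
    exact hm0 h1
  obtain ⟨y, hy, hmin⟩ := Finset.exists_min_image _
      (fun v => (1 - (u v : ℝ)) / (-(m v : ℝ))) hS
  rw [Finset.mem_filter] at hy
  obtain ⟨hyV, hym⟩ := hy
  -- elements with negative value are off the facet
  have hoff : ∀ z ∈ V, m z < 0 → u z < 1 := by
    intro z hz hzm
    rcases lt_or_eq_of_le (hu.le_one z hz) with h | h
    · exact h
    · by_cases hzw : z = w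
      · rw [hzw, hm.1] at hzm
        omega
      · have := hm.2 z hz h hzw
        omega
  have hy1 := hoff y hyV hym
  have hymR : (0:ℝ) < -(m y : ℝ) := by
    have : (m y : ℝ) < 0 := by exact_mod_cast hym
    linarith
  have hy1R : (0:ℝ) < 1 - (u y : ℝ) := by
    have : (u y : ℝ) < 1 := by exact_mod_cast hy1
    linarith
  set l : ℝ := (1 - (u y : ℝ)) / (-(m y : ℝ)) with hl
  have hl0 : 0 < l := div_pos hy1R hymR
  let φ : (Fin n → ℤ) →ₗ[ℤ] ℝ := (Int.castAddHom ℝ).toIntLinearMap ∘ₗ u -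
    ((AddMonoidHom.mulLeft l).comp (Int.castAddHom ℝ)).toIntLinearMap ∘ₗ m
  have hφ : ∀ v, φ v = (u v : ℝ) - l * (m v : ℝ) := by
    intro v
    simp [φ]
  have hφle : ∀ v ∈ V, φ v ≤ 1 := by
    intro v hv
    rw [hφ]
    rcases le_or_gt 0 (m v) with h | h
    · have h1 : (u v : ℝ) ≤ 1 := by exact_mod_cast hu.le_one v hv
      have h2 : (0:ℝ) ≤ (m v : ℝ) := by exact_mod_cast h
      nlinarith
    · have h2 : (0:ℝ) < -(m v : ℝ) := by
        have : (m v : ℝ) < 0 := by exact_mod_cast h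
        linarith
      have h1 : l ≤ (1 - (u v : ℝ)) / (-(m v : ℝ)) := hmin v (by simp [hv, h])
      rw [le_div_iff₀ h2] at h1
      linarith
  have hφF : ∀ v ∈ V, u v = 1 → v ≠ w → φ v = 1 := by
    intro v hv hv1 hne
    rw [hφ, hm.2 v hv hv1 hne, hv1]
    simp
  have hφy : φ y = 1 := by
    have h1 : (m y : ℝ) ≠ 0 := by
      intro h0
      rw [h0] at hymR
      simp at hymR
    rw [hφ, hl]
    field_simp
    ring
  obtain ⟨u', hu', htight⟩ := hV.exists_fct φ hφle
  -- the vertices of the new facet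
  have hF' : V.filter (fun v => u' v = 1) =
      insert y ((V.filter (fun v => u v = 1)).erase w) := by
    symm
    apply Finset.eq_of_subset_of_card_le
    · intro v hv
      rw [Finset.mem_insert, Finset.mem_erase, Finset.mem_filter] at hv
      rw [Finset.mem_filter]
      rcases hv with rfl | ⟨h1, h2, h3⟩
      · exact ⟨hyV, htight _ hyV hφy⟩
      · exact ⟨h2, htight _ h2 (hφF v h2 h3 h1)⟩
    · rw [Finset.card_insert_of_notMem, Finset.card_erase_of_mem, hu.card, hu'.card]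
      · have hwF : w ∈ V.filter (fun v => u v = 1) := by simp [hw, hw1]
        have h5 := Finset.card_pos.mpr ⟨w, hwF⟩
        rw [hu.card] at h5
        omega
      · simp [hw, hw1]
      · rw [Finset.mem_erase, Finset.mem_filter]
        rintro ⟨_, _, h⟩
        omega
  have hmem' : ∀ v, (v ∈ V ∧ u' v = 1) ↔ (v = y ∨ (v ≠ w ∧ v ∈ V ∧ u v = 1)) := by
    intro v
    have := congrArg (fun s => v ∈ s) hF'
    simp only [Finset.mem_filter, Finset.mem_insert, Finset.mem_erase, eq_iff_iff] at this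
    exact this
  -- `u'` equals `φ`
  have huφ : (Int.castAddHom ℝ).toIntLinearMap ∘ₗ u' = φ := by
    apply hu'.ext
    intro v hv hv1
    have h1 : φ v = 1 := by
      rcases (hmem' v).mp ⟨hv, hv1⟩ with rfl | ⟨h1, h2, h3⟩
      · exact hφy
      · exact hφF v h2 h3 h1
    rw [h1]
    simp [hv1]
  have huφ' : ∀ v, (u' v : ℝ) = (u v : ℝ) - l * (m v : ℝ) := by
    intro v
    rw [← hφ, ← huφ]
    simp
  -- unimodularity
  have hyF' : u' y = 1 := ((hmem' y).mpr (Or.inl rfl)).2
  obtain ⟨m', hm'⟩ := hu'.exists_dual hyV hyF'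
  have hm'm : m' = m' w • m := by
    apply hu.ext
    intro v hv hv1
    by_cases hvw : v = w
    · subst hvw
      simp [hm.1]
    · have h2 := (hmem' v).mpr (Or.inr ⟨hvw, hv, hv1⟩)
      have hvy : v ≠ y := by
        rintro rfl
        omega
      simp [hm.2 v hv hv1 hvw, hm'.2 v hv h2.2 hvy]
  have h6 : m' w * m y = 1 := by
    have := LinearMap.congr_fun hm'm y
    rw [hm'.1] at this
    simpa using this.symm
  have hmy : m y = -1 := by
    have h7 : m y ∣ 1 := Dvd.intro_left _ h6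
    have h8 := Int.isUnit_iff.mp (isUnit_of_dvd_one h7)
    omega
  have hl1 : l = 1 - (u y : ℝ) := by
    rw [hl, hmy]
    simp
  have hu'eq : u' = u - (1 - u y) • m := by
    apply LinearMap.ext
    intro v
    have := huφ' v
    rw [hl1] at this
    have h9 : u' v = u v - (1 - u y) * m v := by exact_mod_cast this
    rw [h9]
    simp
  refine ⟨y, hyV, hy1, hmy, hu'eq ▸ hu', ?_⟩
  intro z hz hz1 hzy
  have h10 : u' z < 1 := by
    rcases lt_or_eq_of_le (hu'.le_one z hz) with h | h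
    · exact h
    · rcases (hmem' z).mp ⟨hz, h⟩ with h1 | ⟨h1, h2, h3⟩
      · exact absurd h1 hzy
      · omega
  rw [hu'eq] at h10
  simp only [LinearMap.sub_apply, LinearMap.smul_apply, smul_eq_mul] at h10
  linarith [mul_comm (1 - u y) (m z)]

lemma IsFct.finite : {u : (Fin n → ℤ) →ₗ[ℤ] ℤ | IsFct V u}.Finite := by
  classical
  apply Set.Finite.of_finite_image (f := fun u => V.filter (fun v => u v = 1))
  · apply Set.Finite.subset (Finset.finite_toSet V.powerset)
    rintro _ ⟨u, _, rfl⟩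
    simp only [Finset.coe_powerset, Set.mem_preimage, Set.mem_powerset_iff, Finset.coe_subset]
    exact Finset.filter_subset _ _
  · intro u hu u' hu' h
    apply IsFct.ext (V := V) hu
    intro v hv hv1
    have h1 : v ∈ V.filter (fun v => u v = 1) := by simp [hv, hv1]
    simp only at h
    rw [h, Finset.mem_filter] at h1
    rw [hv1, h1.2]

/-- Every lattice point lies in the cone over a facet, on which `u x` is maximal. -/
lemma IsSmoothFano.cover (hV : IsSmoothFano V) (x : Fin n → ℤ) :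
    ∃ u, IsFct V u ∧ (∀ u', IsFct V u' → u' x ≤ u x) ∧
      ∃ b : (Fin n → ℤ) → ℤ, (∀ w, 0 ≤ b w) ∧
        x = ∑ w ∈ V.filter (fun v => u v = 1), b w • w := by
  classical
  have hne : {u : (Fin n → ℤ) →ₗ[ℤ] ℤ | IsFct V u}.Nonempty := by
    obtain ⟨u, hu, _⟩ := hV.exists_fct 0 (by simp)
    exact ⟨u, hu⟩
  obtain ⟨u, hu, hmax⟩ := Set.exists_max_image _ (fun u => u x) IsFct.finite hne
  refine ⟨u, hu, hmax, ?_⟩
  obtain ⟨b, hb⟩ := hu.expand x
  have hb0 : ∀ w ∈ V, u w = 1 → 0 ≤ b w := by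
    intro w hw hw1
    obtain ⟨m, hm⟩ := hu.exists_dual hw hw1
    have hmx : m x = b w := by
      rw [hb, map_sum]
      rw [Finset.sum_eq_single w]
      · rw [LinearMap.map_smul, hm.1, smul_eq_mul, mul_one]
      · intro v hv hne
        rw [Finset.mem_filter] at hv
        rw [LinearMap.map_smul, hm.2 v hv.1 hv.2 hne, smul_zero]
      · intro h
        simp [hw, hw1] at h
    obtain ⟨y, hy, hy1, hmy, hu', _⟩ := hV.pivot hu hw hw1 hm
    have h1 := hmax _ hu'
    simp only [LinearMap.sub_apply, LinearMap.smul_apply, smul_eq_mul] at h1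
    rw [hmx] at h1
    by_contra hneg
    push Not at hneg
    nlinarith
  refine ⟨fun w => if w ∈ V ∧ u w = 1 then b w else 0, ?_, ?_⟩
  · intro w
    dsimp only
    split_ifs with h
    · exact hb0 w h.1 h.2
    · exact le_rfl
  · conv_lhs => rw [hb]
    apply Finset.sum_congr rfl
    intro w hw
    rw [Finset.mem_filter] at hw
    simp [hw]

end Pool.Agent.FBL
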