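import Pool.Agent.FBL.Classes

namespace Pool.Agent.FBL

open Finset

variable {n : ℕ} {V : Finset (Fin n → ℤ)} {q h : ℕ}

/-- The standing facts about a fibre-like polytope with at least two orbits. -/
structure Setup (V : Finset (Fin n → ℤ)) (q h : ℕ) : Prop where
  fano : IsSmoothFano V
  q0 : 0 < q
  h0 : 0 < h
  cover : ∀ v ∈ V, ∃ P, IsBlock V P ∧ v ∈ P
  card : ∀ P, IsBlock V P → P.card = q * h
  slack : ∀ u, IsFct V u → ∀ v ∈ V, (q:ℤ) ∣ 1 - u v
  gen : ∃ γ, IsRel V γ ∧ ∑ v ∈ V, γ v = q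
  classes : ∀ P, IsBlock V P → 2 * h ≤ (P.image (cl V)).card

/-- The slack of `v` at the facet `u`. -/
def sl (q : ℕ) (u : (Fin n → ℤ) →ₗ[ℤ] ℤ) (v : Fin n → ℤ) : ℤ := (1 - u v) / q

variable (S : Setup V q h) {u : (Fin n → ℤ) →ₗ[ℤ] ℤ} (hu : IsFct V u)

include S

lemma Setup.qpos : (0:ℤ) < q := by exact_mod_cast S.q0

include hu

lemma Setup.sl_mul {v : Fin n → ℤ} (hv : v ∈ V) : (q:ℤ) * sl q u v = 1 - u v :=
  Int.mul_ediv_cancel' (S.slack u hu v hv)

lemma Setup.sl_nonneg {v : Fin n → ℤ} (hv : v ∈ V) : 0 ≤ sl q u v := by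
  have h1 := S.sl_mul hu hv
  have h2 := hu.le_one v hv
  have h3 := S.qpos
  by_contra hneg
  push Not at hneg
  nlinarith

lemma Setup.sl_eq_zero {v : Fin n → ℤ} (hv : v ∈ V) : sl q u v = 0 ↔ u v = 1 := by
  have h1 := S.sl_mul hu hv
  have h3 := S.qpos
  constructor
  · intro h
    rw [h] at h1
    linarith
  · intro h
    rw [h] at h1
    have : (q:ℤ) * sl q u v = 0 := by linarith
    rcases mul_eq_zero.mp this with h | h
    · omega
    · exact h

lemma Setup.sl_pos {v : Fin n → ℤ} (hv : v ∈ V) : 0 < sl q u v ↔ u v ≠ 1 := by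
  rw [Ne, ← S.sl_eq_zero hu hv]
  have := S.sl_nonneg hu hv
  omega

lemma Setup.sl_sum {P : Finset (Fin n → ℤ)} (hP : IsBlock V P) :
    ∑ v ∈ P, sl q u v = h := by
  have h1 : (q:ℤ) * ∑ v ∈ P, sl q u v = q * h := by
    rw [Finset.mul_sum, Finset.sum_congr rfl (fun v hv => S.sl_mul hu (hP.sub hv)),
      Finset.sum_sub_distrib, hP.sum_map u, Finset.sum_const, S.card P hP]
    simp
  exact mul_left_cancel₀ (ne_of_gt S.qpos) h1

lemma Setup.sl_rel {γ : (Fin n → ℤ) → ℤ} (hγ : IsRel V γ) :
    (q:ℤ) * ∑ v ∈ V, γ v * sl q u v = ∑ v ∈ V, γ v := by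
  rw [Finset.mul_sum]
  have h1 : ∑ v ∈ V, (q:ℤ) * (γ v * sl q u v) = ∑ v ∈ V, (γ v - γ v * u v) := by
    apply Finset.sum_congr rfl
    intro v hv
    have := S.sl_mul hu hv
    rw [show (q:ℤ) * (γ v * sl q u v) = γ v * (q * sl q u v) by ring, this]
    ring
  rw [h1, Finset.sum_sub_distrib, hγ.map u, sub_zero]

/-- The pivot rule with slacks. -/
lemma Setup.pivot {w : Fin n → ℤ} (hw : w ∈ V) (hw1 : u w = 1)
    {m : (Fin n → ℤ) →ₗ[ℤ] ℤ} (hm : IsDual V u w m) :
    ∃ y ∈ V, 0 < sl q u y ∧ m y = -1 ∧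
      (∃ u', IsFct V u' ∧ ∀ v ∈ V, sl q u' v = sl q u v + sl q u y * m v) ∧
      ∀ z ∈ V, 0 < sl q u z → z ≠ y → -m z * sl q u y < sl q u z := by
  obtain ⟨y, hy, hy1, hmy, hu', hz⟩ := S.fano.pivot hu hw hw1 hm
  have h1 := S.sl_mul hu hy
  have h2 := S.qpos
  refine ⟨y, hy, (S.sl_pos hu hy).mpr (ne_of_lt hy1), hmy, ⟨_, hu', ?_⟩, ?_⟩
  · intro v hv
    have h3 := S.sl_mul hu' hv
    have h4 := S.sl_mul hu hv
    simp only [LinearMap.sub_apply, LinearMap.smul_apply, smul_eq_mul] at h3
    apply mul_left_cancel₀ (ne_of_gt h2)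
    rw [h3]
    linear_combination -h4 - (m v) * h1
  · intro z hz' hz1 hne
    have h3 := hz z hz' (lt_of_le_of_ne (hu.le_one z hz') ((S.sl_pos hu hz').mp hz1)) hne
    have h4 := S.sl_mul hu hz'
    rw [← h4, ← h1] at h3
    have h5 : (q:ℤ) * (-m z * sl q u y) < q * sl q u z := by linarith
    exact lt_of_mul_lt_mul_left h5 h2.le

omit S hu in
/-- Off-facet elements of `P`. -/
def off (u : (Fin n → ℤ) →ₗ[ℤ] ℤ) (P : Finset (Fin n → ℤ)) : Finset (Fin n → ℤ) :=
  P.filter (fun v => u v ≠ 1)

omit S hu in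
lemma mem_off {P : Finset (Fin n → ℤ)} {v : Fin n → ℤ} : v ∈ off u P ↔ v ∈ P ∧ u v ≠ 1 := by
  simp [off]

omit S hu in
lemma block_sum {w : Fin n → ℤ} {m : (Fin n → ℤ) →ₗ[ℤ] ℤ} (hm : IsDual V u w m)
    (hw1 : u w = 1)
    {P : Finset (Fin n → ℤ)} (hP : IsBlock V P) [Decidable (w ∈ P)] :
    ∑ y ∈ off u P, (-m y) = if w ∈ P then 1 else 0 := by
  classical
  have h1 := hP.sum_map m
  rw [← Finset.sum_filter_add_sum_filter_not P (fun v => u v ≠ 1)] at h1
  have h2 : ∑ x ∈ P.filter (fun v => ¬ (u v ≠ 1)), m x = if w ∈ P then 1 else 0 := by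
    have h3 : ∑ x ∈ P.filter (fun v => ¬ (u v ≠ 1)), m x =
        ∑ x ∈ P.filter (fun v => ¬ (u v ≠ 1)), (if x = w then 1 else 0) := by
      apply Finset.sum_congr rfl
      intro x hx
      rw [Finset.mem_filter, not_not] at hx
      split_ifs with h
      · rw [h, hm.1]
      · exact hm.2 x (hP.sub hx.1) hx.2 h
    rw [h3, Finset.sum_ite_eq']
    simp only [Finset.mem_filter, not_not, hw1, and_true]
  rw [h2] at h1
  rw [Finset.sum_neg_distrib]
  unfold off
  linarith

lemma Setup.off_sum {P : Finset (Fin n → ℤ)} (hP : IsBlock V P) :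
    ∑ v ∈ off u P, sl q u v = h := by
  classical
  rw [← S.sl_sum hu hP]
  apply Finset.sum_subset (Finset.filter_subset _ _)
  intro v hv hv'
  rw [S.sl_eq_zero hu (hP.sub hv)]
  by_contra h
  exact hv' (mem_off.mpr ⟨hv, h⟩)

lemma Setup.off_one_le {P : Finset (Fin n → ℤ)} (hP : IsBlock V P) {v : Fin n → ℤ}
    (hv : v ∈ off u P) : 1 ≤ sl q u v := by
  rw [mem_off] at hv
  exact (S.sl_pos hu (hP.sub hv.1)).mpr hv.2

lemma Setup.off_card_le {P : Finset (Fin n → ℤ)} (hP : IsBlock V P) :
    (off u P).card ≤ h := by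
  have h1 := S.off_sum hu hP
  have h2 : ∑ v ∈ off u P, (1:ℤ) ≤ ∑ v ∈ off u P, sl q u v :=
    Finset.sum_le_sum (fun v hv => S.off_one_le hu hP hv)
  rw [h1, Finset.sum_const] at h2
  simp at h2
  exact h2

lemma Setup.off_card_pos {P : Finset (Fin n → ℤ)} (hP : IsBlock V P) :
    1 ≤ (off u P).card := by
  by_contra hlt
  have h0 : (off u P).card = 0 := by omega
  rw [Finset.card_eq_zero] at h0
  have h1 := S.off_sum hu hP
  rw [h0] at h1
  have := S.h0
  simp at h1
  omega

/-- In a full block all slacks are 1. -/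
lemma Setup.full_sl {P : Finset (Fin n → ℤ)} (hP : IsBlock V P) (hf : (off u P).card = h)
    {v : Fin n → ℤ} (hv : v ∈ off u P) : sl q u v = 1 := by
  have h1 := S.off_sum hu hP
  have h2 : ∑ v ∈ off u P, (sl q u v - 1) = 0 := by
    rw [Finset.sum_sub_distrib, h1, Finset.sum_const, hf]
    simp
  have h3 : ∀ v ∈ off u P, 0 ≤ sl q u v - 1 := by
    intro v hv
    have := S.off_one_le hu hP hv
    linarith
  have := (Finset.sum_eq_zero_iff_of_nonneg h3).mp h2 v hv
  linarith

omit S hu in
/-- If the dual functional has a single nonzero value off the facet, the elements are equivalent. -/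
lemma eqv_of_dual {w y : Fin n → ℤ} {m : (Fin n → ℤ) →ₗ[ℤ] ℤ} (hm : IsDual V u w m)
    (hw1 : u w = 1)
    (hy1 : u y ≠ 1) (hmy : m y = -1) (h0 : ∀ z ∈ V, u z ≠ 1 → z ≠ y → m z = 0) :
    Eqv V w y := by
  refine ⟨m, ?_⟩
  intro v hv
  by_cases h1 : u v = 1
  · have h2 : v ≠ y := by rintro rfl; exact hy1 h1
    by_cases h3 : v = w
    · rw [h3, hm.1]
      have : w ≠ y := by rintro rfl; exact hy1 hw1
      simp [this]
    · rw [hm.2 v hv h1 h3]
      simp [h2, h3]
  · have h3 : v ≠ w := by rintro rfl; exact h1 hw1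
    by_cases h2 : v = y
    · rw [h2, hmy]
      have : y ≠ w := by rintro rfl; exact hy1 hw1
      simp [this]
    · rw [h0 v hv h1 h2]
      simp [h2, h3]

/-- The pivot rule at a full block. -/
lemma Setup.full_pivot {P : Finset (Fin n → ℤ)} (hP : IsBlock V P) (hf : (off u P).card = h)
    {w : Fin n → ℤ} (hw : w ∈ P) (hw1 : u w = 1) {m : (Fin n → ℤ) →ₗ[ℤ] ℤ}
    (hm : IsDual V u w m) :
    ∃ y ∈ off u P, m y = -1 ∧ (∀ z ∈ off u P, z ≠ y → m z = 0) ∧
      (∃ u', IsFct V u' ∧ ∀ v ∈ V, sl q u' v = sl q u v + m v) ∧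
      ∀ z ∈ V, u z ≠ 1 → z ≠ y → -m z < sl q u z := by
  classical
  obtain ⟨y, hy, hy0, hmy, hu', hz⟩ := S.pivot hu (hP.sub hw) hw1 hm
  have h1 := block_sum hm hw1 hP
  rw [if_pos hw] at h1
  have hle : ∀ z ∈ off u P, z ≠ y → -m z ≤ 0 := by
    intro z hz' hne
    have h2 := S.full_sl hu hP hf hz'
    rw [mem_off] at hz'
    have h3 := hz z (hP.sub hz'.1) ((S.sl_pos hu (hP.sub hz'.1)).mpr hz'.2) hne
    rw [h2] at h3
    by_contra hneg
    push Not at hneg
    nlinarith
  have hyP : y ∈ off u P := by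
    by_contra hyP
    have : ∑ z ∈ off u P, (-m z) ≤ 0 := by
      apply Finset.sum_nonpos
      intro z hz'
      apply hle z hz'
      rintro rfl
      exact hyP hz'
    omega
  have hsy := S.full_sl hu hP hf hyP
  refine ⟨y, hyP, hmy, ?_, ?_, ?_⟩
  · intro z hz' hne
    rw [← Finset.add_sum_erase _ _ hyP, hmy] at h1
    have h4 : ∑ z ∈ (off u P).erase y, m z = 0 := by
      rw [Finset.sum_neg_distrib] at h1
      linarith
    have h5 : ∀ z ∈ (off u P).erase y, 0 ≤ m z := by
      intro z hz'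
      rw [Finset.mem_erase] at hz'
      have := hle z hz'.2 hz'.1
      linarith
    exact (Finset.sum_eq_zero_iff_of_nonneg h5).mp h4 z (Finset.mem_erase.mpr ⟨hne, hz'⟩)
  · obtain ⟨u', hu1, hu2⟩ := hu'
    refine ⟨u', hu1, ?_⟩
    intro v hv
    rw [hu2 v hv, hsy, one_mul]
  · intro z hz' hz1 hne
    have := hz z hz' ((S.sl_pos hu hz').mpr hz1) hne
    rw [hsy, mul_one] at this
    exact this

omit hu in
/-- The block of an element. -/
lemma Setup.exists_block {v : Fin n → ℤ} (hv : v ∈ V) : ∃ P, IsBlock V P ∧ v ∈ P :=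
  S.cover v hv

/-- If every block is single or full at the facet, a full block gives a contradiction. -/
lemma Setup.no_single_full (hsf : ∀ P, IsBlock V P → (off u P).card = 1 ∨ (off u P).card = h) :
    False := by
  classical
  obtain ⟨v0, hv0⟩ := S.fano.nonempty
  obtain ⟨P0, hP0, _⟩ := S.cover v0 hv0
  -- the key: in a block, every element is equivalent to an off-facet element
  have key : ∀ P, IsBlock V P → ((off u P).card = h ∨ ∀ Q, IsBlock V Q → (off u Q).card = 1) →
      (P.image (cl V)).card ≤ h := by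
    intro P hP hor
    have hsub : P.image (cl V) ⊆ (off u P).image (cl V) := by
      intro C hC
      obtain ⟨w, hw, rfl⟩ := Finset.mem_image.mp hC
      by_cases hw1 : u w = 1
      · obtain ⟨m, hm⟩ := hu.exists_dual (hP.sub hw) hw1
        -- single blocks
        have hsing : ∀ Q, IsBlock V Q → (off u Q).card = 1 → ∀ z ∈ off u Q,
            -m z = if w ∈ Q then 1 else 0 := by
          intro Q hQ hQ1 z hz
          obtain ⟨z', hz'⟩ := Finset.card_eq_one.mp hQ1
          have h1 := block_sum hm hw1 hQ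
          rw [hz', Finset.sum_singleton] at h1
          rw [hz', Finset.mem_singleton] at hz
          rw [hz]
          exact h1
        rcases hor with hf | hall
        · obtain ⟨y, hy, hmy, hyz, _, hlt⟩ := S.full_pivot hu hP hf hw hw1 hm
          have hyo := mem_off.mp hy
          have heq : Eqv V w y := by
            apply eqv_of_dual hm hw1 hyo.2 hmy
            intro z hz hz1 hne
            obtain ⟨Q, hQ, hzQ⟩ := S.cover z hz
            have hzo : z ∈ off u Q := mem_off.mpr ⟨hzQ, hz1⟩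
            by_cases hPQ : P = Q
            · rw [← hPQ] at hzo
              exact hyz z hzo hne
            · have hwQ : w ∉ Q := fun h => hPQ (hP.eq hQ hw h)
              rcases hsf Q hQ with h1 | h1
              · have := hsing Q hQ h1 z hzo
                rw [if_neg hwQ] at this
                linarith
              · have h2 := block_sum hm hw1 hQ
                rw [if_neg hwQ] at h2
                have h3 : ∑ z ∈ off u Q, m z = 0 := by
                  rw [Finset.sum_neg_distrib] at h2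
                  linarith
                have h4 : ∀ z ∈ off u Q, 0 ≤ m z := by
                  intro x hx
                  have hxy : x ≠ y := by
                    rintro rfl
                    exact hPQ (hP.eq hQ hyo.1 (mem_off.mp hx).1)
                  have h5 := S.full_sl hu hQ h1 hx
                  have h6 := hlt x (hQ.sub (mem_off.mp hx).1) (mem_off.mp hx).2 hxy
                  rw [h5] at h6
                  linarith
                exact (Finset.sum_eq_zero_iff_of_nonneg h4).mp h3 z hzo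
          rw [Finset.mem_image]
          refine ⟨y, hy, ?_⟩
          exact (cl_eq_iff (hP.sub hyo.1)).mpr heq.symm
        · obtain ⟨y, hy⟩ := Finset.card_eq_one.mp (hall P hP)
          have hyo : y ∈ off u P := by rw [hy]; simp
          have h1 := hsing P hP (hall P hP) y hyo
          rw [if_pos hw] at h1
          have heq : Eqv V w y := by
            apply eqv_of_dual hm hw1 (mem_off.mp hyo).2 (by linarith)
            intro z hz hz1 hne
            obtain ⟨Q, hQ, hzQ⟩ := S.cover z hz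
            have hzo : z ∈ off u Q := mem_off.mpr ⟨hzQ, hz1⟩
            have hwQ : w ∉ Q := by
              intro h
              have hPQ : P = Q := hP.eq hQ hw h
              rw [← hPQ, hy, Finset.mem_singleton] at hzo
              exact hne hzo
            have := hsing Q hQ (hall Q hQ) z hzo
            rw [if_neg hwQ] at this
            linarith
          rw [Finset.mem_image]
          refine ⟨y, hyo, ?_⟩
          exact (cl_eq_iff (hP.sub (mem_off.mp hyo).1)).mpr heq.symm
      · exact Finset.mem_image_of_mem _ (mem_off.mpr ⟨hw, hw1⟩)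
    exact (Finset.card_le_card hsub).trans (Finset.card_image_le.trans (S.off_card_le hu hP))
  have hh := S.h0
  by_cases hall : ∀ Q, IsBlock V Q → (off u Q).card = 1
  · have h1 := key P0 hP0 (Or.inr hall)
    have h2 := S.classes P0 hP0
    omega
  · push Not at hall
    obtain ⟨Q, hQ, hQ1⟩ := hall
    have h3 := (hsf Q hQ).resolve_left hQ1
    have h1 := key Q hQ (Or.inl h3)
    have h2 := S.classes Q hQ
    omega

end Pool.Agent.FBL
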